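import Pool.Agent.Y119.HY.Fin2
import Pool.Agent.Y123.GN.E8

/-!
# The hypergeometric families of symplectic type have big monodromy

The relations between the solutions which hold near `z = 0` are invariant under the special isometry group.
-/

set_option autoImplicit false

open PowerSeries Filter Topology Matrix

namespace Pool.Agent.U757.HG

open Pool.Agent.Y119.HY (QD Am Jm cm E Ep Hf Hc Yf Vr ev evp pt PA log_sep E_mul_neg Ac_nil Rel Gal hyp_invar
  eval_evp map_mul_eval map_C_eval Ep_eval Hf_an sol_c)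
open Pool.Agent.Y119.HZ (ix hf qe E_qe ev_Hp Yt Yt_eq Yt_form)
open Pool.Agent.Y120.R
open Pool.Agent.Y123.GN hiding ev

variable {n : ℕ} {Q : Polynomial ℚ}

/-- separation of analytic functions and powers of the logarithm, germs at zero -/
theorem log_zero' {f : ℂ → Polynomial ℂ} (hf : PA (Metric.ball 0 1) f)
    (h : ∀ᶠ x : ℝ in 𝓝[>] 0, (f (x : ℂ)).eval ((Real.log x : ℝ) : ℂ) = 0) :
    ∀ z ∈ Metric.ball (0 : ℂ) 1, f z = 0 := by
  obtain ⟨h1, d, hd⟩ := hf
  have h0 : (0 : ℂ) ∈ Metric.ball (0 : ℂ) 1 := Metric.mem_ball_self one_pos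
  have h2 := log_sep (d := d) (fun j z => (f z).coeff j) (fun j _ => h1 j 0 h0) (by
    filter_upwards [h] with x hx
    rw [← Polynomial.eval_eq_sum_range' (hd x)]
    exact hx)
  intro z hz
  ext j
  rw [Polynomial.coeff_zero]
  by_cases hj : j < d
  · exact (h1 j).eqOn_zero_of_preconnected_of_eventuallyEq_zero (convex_ball _ _).isPreconnected h0 (h2 j hj) hz
  · exact Polynomial.coeff_eq_zero_of_natDegree_lt (lt_of_lt_of_le (hd z) (not_lt.1 hj))

/-- relations which hold near zero hold on `(0, 1)` -/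
theorem mem_Rel (hQ : QD n Q) {P : MvPolynomial (Vr n) ℂ}
    (h : ∀ᶠ x : ℝ in 𝓝[>] 0, ev P (x : ℂ) (Complex.log x) (Yf (cm (Am n)) (Hc n Q) (x : ℂ)) = 0) :
    P ∈ Rel (Yf (cm (Am n)) (Hc n Q)) := by
  have hH := sol_c hQ
  have h0 : cm (Am n) ^ n = 0 := Ac_nil
  have h1 : ∀ w ∈ Metric.ball (0 : ℂ) 1, evp P (Polynomial.C w) Polynomial.X
      ((Hf (Hc n Q) w).map Polynomial.C * Ep (cm (Am n))) = 0 := by
    refine log_zero' (f := fun w => evp P (Polynomial.C w) Polynomial.X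
      ((Hf (Hc n Q) w).map Polynomial.C * Ep (cm (Am n)))) ?_ ?_
    · refine PA.aeval (fun o => ?_) P
      rcases o with _ | _ | x
      · exact PA.ofFun analyticOnNhd_id
      · exact PA.const _
      · simp only [pt, Option.elim_some, Matrix.mul_apply, Matrix.map_apply]
        exact PA.sum _ fun l _ => (PA.ofFun (Hf_an hH h0 _ _)).mul (PA.const _)
    · filter_upwards [h, self_mem_nhdsWithin] with y hy hy0
      rw [eval_evp, map_mul_eval, map_C_eval, Ep_eval, Complex.ofReal_log (le_of_lt hy0), Polynomial.eval_C,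
        Polynomial.eval_X]
      exact hy
  intro x hx hx1
  have h2 := congrArg (Polynomial.eval (Complex.log x)) (h1 x (by
    rw [Metric.mem_ball, dist_zero_right, Complex.norm_real, Real.norm_of_nonneg hx.le]
    exact hx1))
  rw [eval_evp, map_mul_eval, map_C_eval, Ep_eval, Polynomial.eval_zero, Polynomial.eval_C, Polynomial.eval_X] at h2
  exact h2

/-- the entry `(a, b)` of the transpose of `Y Ω` as a polynomial in `log t` and the power series -/
noncomputable def pm (n : ℕ) (Ω : Matrix (Fin n) (Fin n) ℂ) (a b : Fin n) : MvPolynomial (Option (Fin (n * n))) ℂ :=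
  ∑ c, ∑ d, MvPolynomial.X (some ((ix n).symm (b, c))) *
    (∑ l ∈ Finset.range n, MvPolynomial.C ((qe n l c d : ℚ) : ℂ) * MvPolynomial.X none ^ l) * MvPolynomial.C (Ω d a)

theorem pm_deg (Ω : Matrix (Fin n) (Fin n) ℂ) (a b : Fin n) : (pm n Ω a b).totalDegree ≤ 1 + n := by
  unfold pm
  refine (MvPolynomial.totalDegree_finsetSum _ _).trans (Finset.sup_le fun c _ => ?_)
  refine (MvPolynomial.totalDegree_finsetSum _ _).trans (Finset.sup_le fun d _ => ?_)
  refine (MvPolynomial.totalDegree_mul _ _).trans ?_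
  rw [MvPolynomial.totalDegree_C, add_zero]
  refine (MvPolynomial.totalDegree_mul _ _).trans (add_le_add ?_ ?_)
  · exact (MvPolynomial.totalDegree_X _).le
  · refine (MvPolynomial.totalDegree_finsetSum _ _).trans (Finset.sup_le fun l hl => ?_)
    refine (MvPolynomial.totalDegree_mul _ _).trans ?_
    rw [MvPolynomial.totalDegree_C, zero_add]
    refine (MvPolynomial.totalDegree_pow _ _).trans ?_
    rw [MvPolynomial.totalDegree_X, mul_one]
    exact (Finset.mem_range.1 hl).le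

theorem pM_pm (Ω : Matrix (Fin n) (Fin n) ℂ) (s : ℝ) :
    pM (hf n Q) (pm n Ω) s =
      (Hf (Hc n Q) (((1 / s : ℝ)) : ℂ) * E (cm (Am n)) (-((Real.log s : ℝ) : ℂ)) * Ω)ᵀ := by
  ext a b
  unfold pM pm
  rw [Matrix.of_apply, Matrix.transpose_apply, Matrix.mul_apply]
  simp only [map_sum, map_mul, map_pow, Matrix.mul_apply, Finset.sum_mul, MvPolynomial.aeval_X, MvPolynomial.aeval_C,
    E_qe]
  rw [Finset.sum_comm]
  refine Finset.sum_congr rfl fun d _ => Finset.sum_congr rfl fun c _ => ?_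
  have h1 : p1 (hf n Q) s (some ((ix n).symm (b, c))) = Hf (Hc n Q) (((1 / s : ℝ)) : ℂ) b c := by
    unfold p1
    rw [Option.elim_some, ← ev_Hp]
    unfold hf
    rw [Equiv.apply_symm_apply]
  have h2 : p1 (hf n Q) s none = ((Real.log s : ℝ) : ℂ) := rfl
  rw [h1, h2]
  rfl

/-- at the points `1 / s`, `s > 0` -/
theorem pM_Yf (Ω : Matrix (Fin n) (Fin n) ℂ) {s : ℝ} (hs : 0 < s) :
    pM (hf n Q) (pm n Ω) s = (Yf (cm (Am n)) (Hc n Q) (((1 / s : ℝ)) : ℂ) * Ω)ᵀ := by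
  rw [pM_pm]
  unfold Yf
  have h1 : Complex.log ((((1 / s : ℝ)) : ℂ)) = -((Real.log s : ℝ) : ℂ) := by
    rw [← Complex.ofReal_log (by positivity), one_div, Real.log_inv]
    push_cast
    rfl
  rw [h1]

/-- a relation as a polynomial in `z`, `log z` and the entries of `Y` -/
theorem exists_ev (Ω : Matrix (Fin n) (Fin n) ℂ) (R : MvPolynomial (Fin n × Fin n) (Polynomial ℂ)) :
    ∃ P : MvPolynomial (Vr n) ℂ, ∀ (s : ℝ) (L : ℂ) (Y : Matrix (Fin n) (Fin n) ℂ),
      ev P (((1 / s : ℝ)) : ℂ) L Y = rel1 R s (Y * Ω)ᵀ := by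
  refine ⟨MvPolynomial.eval₂ (Polynomial.aeval (R := ℂ) (MvPolynomial.X none : MvPolynomial (Vr n) ℂ)).toRingHom
    (fun v => ∑ c, MvPolynomial.X (some (some (v.2, c))) * MvPolynomial.C (Ω c v.1)) R, fun s L Y => ?_⟩
  unfold ev rel1
  induction R using MvPolynomial.induction_on with
  | C p =>
    rw [MvPolynomial.eval₂_C, MvPolynomial.eval₂_C]
    have h1 : ((MvPolynomial.eval (pt (((1 / s : ℝ)) : ℂ) L Y)).comp
        (Polynomial.aeval (R := ℂ) (MvPolynomial.X none : MvPolynomial (Vr n) ℂ)).toRingHom) =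
        Polynomial.evalRingHom (1 / (s : ℂ)) := by
      refine Polynomial.ringHom_ext (fun a => ?_) ?_
      · simp
      · rw [RingHom.comp_apply]
        show (MvPolynomial.eval (pt (((1 / s : ℝ)) : ℂ) L Y)) (Polynomial.aeval _ Polynomial.X) = _
        rw [Polynomial.aeval_X, MvPolynomial.eval_X, Polynomial.coe_evalRingHom, Polynomial.eval_X]
        simp [pt]
    rw [← h1]
    rfl
  | add p q hp hq => rw [MvPolynomial.eval₂_add, MvPolynomial.eval₂_add, map_add, hp, hq]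
  | mul_X p j hp =>
    rw [MvPolynomial.eval₂_mul, MvPolynomial.eval₂_mul, map_mul, hp, MvPolynomial.eval₂_X, MvPolynomial.eval₂_X]
    congr 1
    rw [map_sum, Matrix.transpose_apply, Matrix.mul_apply]
    refine Finset.sum_congr rfl fun c _ => ?_
    rw [map_mul, MvPolynomial.eval_X, MvPolynomial.eval_C]
    rfl

/-- **big monodromy** -/
theorem prs_of (hQ : QD n Q) {B Ω g : Matrix (Fin n) (Fin n) ℂ} {lam : ℂ} (hB : IsUnit B) (hlam : lam ≠ 0)
    (hΩ : Ωᵀ * cm (Jm n Q) * Ω = lam • B) (hg : g * B * gᵀ = B) : Prs (hf n Q) (pm n Ω) g := by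
  have hJ : (cm (Jm n Q)).det ≠ 0 := Pool.Agent.Y119.HY.Jc_det hQ
  have hΩu : IsUnit Ω.det := by
    rw [isUnit_iff_ne_zero]
    intro h0
    have h1 := congrArg Matrix.det hΩ
    rw [Matrix.det_mul, Matrix.det_mul, h0, mul_zero, Matrix.det_smul] at h1
    exact mul_ne_zero (pow_ne_zero _ hlam) ((Matrix.isUnit_iff_isUnit_det _).1 hB).ne_zero h1.symm
  set γ : Matrix (Fin n) (Fin n) ℂ := Ω * gᵀ * Ω⁻¹ with hγ
  have hγJ : γ.transpose * cm (Jm n Q) * γ = cm (Jm n Q) := by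
    have i1 : Ω * Ω⁻¹ = 1 := Matrix.mul_nonsing_inv _ hΩu
    have i2 : (Ω⁻¹)ᵀ * Ωᵀ = 1 := by rw [← Matrix.transpose_mul, i1, Matrix.transpose_one]
    calc γ.transpose * cm (Jm n Q) * γ = (Ω⁻¹)ᵀ * (g * (Ωᵀ * cm (Jm n Q) * Ω) * gᵀ) * Ω⁻¹ := by
          rw [hγ, Matrix.transpose_mul, Matrix.transpose_mul, Matrix.transpose_transpose]
          simp only [Matrix.mul_assoc]
      _ = (Ω⁻¹)ᵀ * (lam • B) * Ω⁻¹ := by
          rw [hΩ, Matrix.mul_smul, Matrix.smul_mul, hg]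
      _ = (Ω⁻¹)ᵀ * (Ωᵀ * cm (Jm n Q) * Ω) * Ω⁻¹ := by rw [hΩ]
      _ = ((Ω⁻¹)ᵀ * Ωᵀ) * cm (Jm n Q) * (Ω * Ω⁻¹) := by simp only [Matrix.mul_assoc]
      _ = cm (Jm n Q) := by rw [i1, i2, Matrix.one_mul, Matrix.mul_one]
  have hgal := hyp_invar hQ γ hγJ
  intro R hR
  obtain ⟨P, hP⟩ := exists_ev Ω R
  have hrel : P ∈ Rel (Yf (cm (Am n)) (Hc n Q)) := by
    refine mem_Rel hQ ?_
    have h1 : Tendsto (fun x : ℝ => 1 / x) (𝓝[>] 0) atTop := by
      simp only [one_div]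
      exact tendsto_inv_nhdsGT_zero
    filter_upwards [h1.eventually hR, self_mem_nhdsWithin] with x hx hx0
    have hx0' : (0 : ℝ) < x := hx0
    have h2 := hP (1 / x) (Complex.log x) (Yf (cm (Am n)) (Hc n Q) (x : ℂ))
    rw [one_div_one_div] at h2
    rw [h2]
    rw [pM_Yf Ω (by positivity), one_div_one_div] at hx
    exact hx
  filter_upwards [eventually_gt_atTop (1 : ℝ)] with s hs
  have hs0 : (0 : ℝ) < s := by linarith
  have h2 := hgal P hrel (1 / s) (by positivity) (by rw [div_lt_one hs0]; exact hs)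
  rw [hP] at h2
  rw [pM_Yf Ω hs0]
  have h3 : (Yf (cm (Am n)) (Hc n Q) (((1 / s : ℝ)) : ℂ) * γ * Ω)ᵀ =
      g * (Yf (cm (Am n)) (Hc n Q) (((1 / s : ℝ)) : ℂ) * Ω)ᵀ := by
    have i1 : Ω⁻¹ * Ω = 1 := Matrix.nonsing_inv_mul _ hΩu
    have i3 : Yf (cm (Am n)) (Hc n Q) (((1 / s : ℝ)) : ℂ) * γ * Ω =
        Yf (cm (Am n)) (Hc n Q) (((1 / s : ℝ)) : ℂ) * Ω * gᵀ := by
      rw [hγ]
      calc Yf (cm (Am n)) (Hc n Q) (((1 / s : ℝ)) : ℂ) * (Ω * gᵀ * Ω⁻¹) * Ω =
          Yf (cm (Am n)) (Hc n Q) (((1 / s : ℝ)) : ℂ) * Ω * gᵀ * (Ω⁻¹ * Ω) := by simp only [Matrix.mul_assoc]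
        _ = _ := by rw [i1, Matrix.mul_one]
    rw [i3, Matrix.transpose_mul, Matrix.transpose_transpose]
  rw [← h3]
  exact h2

/-- the special isometry group of the Betti form preserves the relations -/
theorem GB_le (hQ : QD n Q) {B Ω : Matrix (Fin n) (Fin n) ℂ} {lam : ℂ} (hB : IsUnit B) (hlam : lam ≠ 0)
    (hΩ : Ωᵀ * cm (Jm n Q) * Ω = lam • B) : GB B ≤ Gs (hf n Q) (pm n Ω) := by
  intro g hg
  exact ⟨prs_of hQ hB hlam hΩ hg.2, prs_of hQ hB hlam hΩ ((GB B).inv_mem hg).2⟩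

end Pool.Agent.U757.HG
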