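import Pool.Agent.Y123.GN.E8
import Pool.Agent.Y123.ST.Out

/-!
# Torsors of similitudes of families of alternating forms are defined over the field of the forms
-/

set_option autoImplicit false
set_option linter.unusedSectionVars false

open Matrix MvPolynomial

namespace Pool.Agent.U757.HG

open Pool.Agent.TH127.PT Pool.Agent.Y123.ST Pool.Agent.Y123.GN

variable {B₀ : Type} [Fintype B₀] [DecidableEq B₀] {k : ℕ} {n : Fin k → ℕ} {K : Subfield ℂ}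
  {B Q : ∀ i, Matrix (Fin (n i)) (Fin (n i)) ℂ}

/-- from equations in a subring to a subtorsor -/
theorem sub_of_eqs {N : Type} [Fintype N] [DecidableEq N] {T : Set (Matrix N N ℂ)}
    (htor : ∀ x ∈ T, ∀ y ∈ T, ∀ z ∈ T, x * y⁻¹ * z ∈ T) {ι : Type} (F : ι → MvPolynomial (N × N) ℂ)
    (hF : ∀ i, F i ∈ PK K (N × N))
    (h : ∀ x : Matrix N N ℂ, x ∈ T ↔ IsUnit x ∧ ∀ i, MvPolynomial.eval (fun b => x b.1 b.2) (F i) = 0) :
    IsSubtorsor K T := by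
  refine ⟨fun x hx => ((h x).1 hx).1, htor, Set.range F, ?_, fun x => ?_⟩
  · rintro _ ⟨i, rfl⟩ m
    exact PK_coeff (hF i) m
  · rw [h]
    refine and_congr_right fun _ => ⟨?_, ?_⟩
    · rintro h1 _ ⟨i, rfl⟩
      exact h1 i
    · intro h1 i
      exact h1 _ ⟨i, rfl⟩

/-- the torsor with the Tate object of weight one as constant part; natural weights, no determinants -/
def FW (B₀ : Type) [Fintype B₀] [DecidableEq B₀] (B Q : ∀ i, Matrix (Fin (n i)) (Fin (n i)) ℂ) (w : Fin k → ℕ) :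
    Set (Matrix (IG B₀ n) (IG B₀ n) ℂ) :=
  {y | ∃ z : ℂ, z ≠ 0 ∧ ∃ X : ∀ i, Matrix (Fin (n i)) (Fin (n i)) ℂ, y = EG (z • (1 : Matrix B₀ B₀ ℂ)) X ∧
    ∀ i, X i * Q i * (X i)ᵀ = z ^ (w i) • B i}

theorem FW_eq (hB : ∀ i, Spf (B i)) (w : Fin k → ℕ) (m : Fin k → ℤ) (δ : Fin k → ℂ) :
    FW B₀ B Q w = FT B₀ B Q (fun i => (w i : ℤ)) m δ := by
  ext y
  constructor
  · rintro ⟨z, hz, X, rfl, h⟩
    refine ⟨z, hz, X, rfl, fun i => ⟨?_, Or.inl (hB i)⟩⟩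
    rw [zpow_natCast]
    exact h i
  · rintro ⟨z, hz, X, rfl, h⟩
    refine ⟨z, hz, X, rfl, fun i => ?_⟩
    have h1 := (h i).1
    rwa [zpow_natCast] at h1

/-- isometries up to a factor are invertible -/
theorem sim_inv {m : ℕ} {C P X : Matrix (Fin m) (Fin m) ℂ} {μ : ℂ} (hμ : μ ≠ 0) (hC : IsUnit C)
    (h : X * P * Xᵀ = μ • C) : IsUnit X ∧ IsUnit P := by
  have h1 := congrArg Matrix.det h
  rw [Matrix.det_mul, Matrix.det_mul, Matrix.det_transpose, Matrix.det_smul] at h1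
  have h2 : C.det ≠ 0 := ((Matrix.isUnit_iff_isUnit_det _).1 hC).ne_zero
  have h3 : X.det * P.det * X.det ≠ 0 := by
    rw [h1]
    exact mul_ne_zero (pow_ne_zero _ hμ) h2
  refine ⟨(Matrix.isUnit_iff_isUnit_det _).2 (isUnit_iff_ne_zero.2 (right_ne_zero_of_mul h3)),
    (Matrix.isUnit_iff_isUnit_det _).2 (isUnit_iff_ne_zero.2 (right_ne_zero_of_mul (left_ne_zero_of_mul h3)))⟩

/-- products in the torsor -/
theorem sim_mul {m : ℕ} {C P X Y Z : Matrix (Fin m) (Fin m) ℂ} {a b c : ℂ} (hb : b ≠ 0) (hC : IsUnit C)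
    (hX : X * P * Xᵀ = a • C) (hY : Y * P * Yᵀ = b • C) (hZ : Z * P * Zᵀ = c • C) :
    (X * Y⁻¹ * Z) * P * (X * Y⁻¹ * Z)ᵀ = (a * b⁻¹ * c) • C := by
  have hYu := (sim_inv hb hC hY).1
  have hYd := (Matrix.isUnit_iff_isUnit_det _).1 hYu
  have h1 : Y⁻¹ * Y = 1 := Matrix.nonsing_inv_mul _ hYd
  have h2 : Yᵀ * (Y⁻¹)ᵀ = 1 := by rw [← Matrix.transpose_mul, h1, Matrix.transpose_one]
  have h3 : Y⁻¹ * C * (Y⁻¹)ᵀ = b⁻¹ • P := by
    calc Y⁻¹ * C * (Y⁻¹)ᵀ = b⁻¹ • (Y⁻¹ * (b • C) * (Y⁻¹)ᵀ) := by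
          rw [Matrix.mul_smul, Matrix.smul_mul, smul_smul, inv_mul_cancel₀ hb, one_smul]
      _ = b⁻¹ • (Y⁻¹ * (Y * P * Yᵀ) * (Y⁻¹)ᵀ) := by rw [hY]
      _ = b⁻¹ • ((Y⁻¹ * Y) * P * (Yᵀ * (Y⁻¹)ᵀ)) := by simp only [Matrix.mul_assoc]
      _ = b⁻¹ • P := by rw [h1, h2, Matrix.one_mul, Matrix.mul_one]
  calc (X * Y⁻¹ * Z) * P * (X * Y⁻¹ * Z)ᵀ = X * (Y⁻¹ * (Z * P * Zᵀ) * (Y⁻¹)ᵀ) * Xᵀ := by
        rw [Matrix.transpose_mul, Matrix.transpose_mul]
        simp only [Matrix.mul_assoc]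
    _ = X * (c • (b⁻¹ • P)) * Xᵀ := by rw [hZ, Matrix.mul_smul, Matrix.smul_mul, h3]
    _ = (c * b⁻¹) • (X * P * Xᵀ) := by
        rw [smul_smul, Matrix.mul_smul, Matrix.smul_mul]
    _ = (a * b⁻¹ * c) • C := by
        rw [hX, smul_smul]
        congr 1
        ring

/-- the inverse of a block matrix -/
theorem EG_inv {z : ℂ} (hz : z ≠ 0) {X : ∀ i, Matrix (Fin (n i)) (Fin (n i)) ℂ} (hX : ∀ i, IsUnit (X i)) :
    (EG (z • (1 : Matrix B₀ B₀ ℂ)) X)⁻¹ = EG (z⁻¹ • (1 : Matrix B₀ B₀ ℂ)) (fun i => (X i)⁻¹) := by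
  refine Matrix.inv_eq_right_inv ?_
  rw [EG_mul, smul_mul_smul_comm, Matrix.one_mul, mul_inv_cancel₀ hz, one_smul]
  have h5 : (fun i => X i * (X i)⁻¹) = 1 := by
    funext i
    exact Matrix.mul_nonsing_inv _ ((Matrix.isUnit_iff_isUnit_det _).1 (hX i))
  rw [h5, EG_one]

theorem EG_unit {z : ℂ} (hz : z ≠ 0) {X : ∀ i, Matrix (Fin (n i)) (Fin (n i)) ℂ} (hX : ∀ i, IsUnit (X i)) :
    IsUnit (EG (z • (1 : Matrix B₀ B₀ ℂ)) X) := by
  refine IsUnit.of_mul_eq_one (EG (z⁻¹ • (1 : Matrix B₀ B₀ ℂ)) (fun i => (X i)⁻¹)) ?_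
  rw [EG_mul, smul_mul_smul_comm, Matrix.one_mul, mul_inv_cancel₀ hz, one_smul]
  have h5 : (fun i => X i * (X i)⁻¹) = 1 := by
    funext i
    exact Matrix.mul_nonsing_inv _ ((Matrix.isUnit_iff_isUnit_det _).1 (hX i))
  rw [h5, EG_one]

theorem FW_torsor (hB : ∀ i, IsUnit (B i)) (w : Fin k → ℕ) :
    ∀ x ∈ FW B₀ B Q w, ∀ y ∈ FW B₀ B Q w, ∀ z ∈ FW B₀ B Q w, x * y⁻¹ * z ∈ FW B₀ B Q w := by
  rintro _ ⟨a, ha, X, rfl, hX⟩ _ ⟨b, hb, Y, rfl, hY⟩ _ ⟨c, hc, Z, rfl, hZ⟩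
  have hYu : ∀ i, IsUnit (Y i) := fun i => (sim_inv (pow_ne_zero _ hb) (hB i) (hY i)).1
  refine ⟨a * b⁻¹ * c, mul_ne_zero (mul_ne_zero ha (inv_ne_zero hb)) hc, fun i => X i * (Y i)⁻¹ * Z i, ?_, fun i => ?_⟩
  · rw [EG_inv hb hYu, EG_mul, EG_mul, smul_mul_smul_comm, smul_mul_smul_comm, Matrix.one_mul, Matrix.one_mul]
  · rw [sim_mul (pow_ne_zero _ hb) (hB i) (hX i) (hY i) (hZ i)]
    congr 1
    rw [mul_pow, mul_pow, inv_pow]

/-- the block `i` -/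
def bk (x : Matrix (IG B₀ n) (IG B₀ n) ℂ) (i : Fin k) : Matrix (Fin (n i)) (Fin (n i)) ℂ :=
  Matrix.of fun a b => x (Sum.inr ⟨i, a⟩) (Sum.inr ⟨i, b⟩)

/-- the generic block -/
noncomputable def GK (B₀ : Type) (n : Fin k → ℕ) (i : Fin k) :
    Matrix (Fin (n i)) (Fin (n i)) (MvPolynomial (IG B₀ n × IG B₀ n) ℂ) :=
  Matrix.of fun a b => MvPolynomial.X (Sum.inr ⟨i, a⟩, Sum.inr ⟨i, b⟩)

/-- the generic form -/
noncomputable def GQ (B₀ : Type) (Q : ∀ i, Matrix (Fin (n i)) (Fin (n i)) ℂ) (i : Fin k) :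
    Matrix (Fin (n i)) (Fin (n i)) (MvPolynomial (IG B₀ n × IG B₀ n) ℂ) :=
  GK B₀ n i * (Q i).map MvPolynomial.C * (GK B₀ n i)ᵀ

theorem GQ_eval (x : Matrix (IG B₀ n) (IG B₀ n) ℂ) (i : Fin k) (a b : Fin (n i)) :
    MvPolynomial.eval (fun s => x s.1 s.2) (GQ B₀ Q i a b) = (bk x i * Q i * (bk x i)ᵀ) a b := by
  unfold GQ GK bk
  simp only [Matrix.mul_apply, map_sum, map_mul, Matrix.of_apply, Matrix.map_apply, MvPolynomial.eval_X,
    MvPolynomial.eval_C, Matrix.transpose_apply]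

theorem GQ_mem (hQ : ∀ i a b, Q i a b ∈ K) (i : Fin k) (a b : Fin (n i)) : GQ B₀ Q i a b ∈ PK K (IG B₀ n × IG B₀ n) := by
  unfold GQ GK
  simp only [Matrix.mul_apply]
  refine Subring.sum_mem _ fun c _ => Subring.mul_mem _ (Subring.sum_mem _ fun d _ => Subring.mul_mem _ ?_ ?_) ?_
  · exact PK_X _
  · rw [Matrix.map_apply]
    exact PK_C (hQ _ _ _)
  · exact PK_X _

/-- the positions outside of the blocks, off the diagonal of the constant part -/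
def offb (B₀ : Type) {k : ℕ} (n : Fin k → ℕ) : IG B₀ n → IG B₀ n → Prop
  | Sum.inl a, Sum.inl b => a ≠ b
  | Sum.inl _, Sum.inr _ => True
  | Sum.inr _, Sum.inl _ => True
  | Sum.inr s, Sum.inr t => s.1 ≠ t.1

/-- a block matrix is determined by its blocks -/
theorem eq_EG (b₀ : B₀) {x : Matrix (IG B₀ n) (IG B₀ n) ℂ} (h1 : ∀ s t, offb B₀ n s t → x s t = 0)
    (h2 : ∀ a, x (Sum.inl a) (Sum.inl a) = x (Sum.inl b₀) (Sum.inl b₀)) :
    x = EG (x (Sum.inl b₀) (Sum.inl b₀) • (1 : Matrix B₀ B₀ ℂ)) (bk x) := by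
  ext s t
  rcases s with a | ⟨i, a⟩ <;> rcases t with b | ⟨j, b⟩
  · show _ = (x (Sum.inl b₀) (Sum.inl b₀) • (1 : Matrix B₀ B₀ ℂ)) a b
    rw [Matrix.smul_apply, Matrix.one_apply, smul_eq_mul]
    by_cases hab : a = b
    · subst hab
      rw [if_pos rfl, mul_one, h2]
    · rw [if_neg hab, mul_zero]
      exact h1 _ _ hab
  · exact h1 _ _ trivial
  · exact h1 _ _ trivial
  · show _ = blockDiagonal' (bk x) ⟨i, a⟩ ⟨j, b⟩
    by_cases hij : i = j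
    · subst hij
      rw [blockDiagonal'_apply_eq]
      rfl
    · rw [blockDiagonal'_apply_ne _ _ _ hij]
      exact h1 _ _ hij

theorem EG_offb (c : ℂ) (X : ∀ i, Matrix (Fin (n i)) (Fin (n i)) ℂ) {s t : IG B₀ n} (h : offb B₀ n s t) :
    EG (c • (1 : Matrix B₀ B₀ ℂ)) X s t = 0 := by
  rcases s with a | ⟨i, a⟩ <;> rcases t with b | ⟨j, b⟩
  · show (c • (1 : Matrix B₀ B₀ ℂ)) a b = 0
    have hab : a ≠ b := h
    rw [Matrix.smul_apply, Matrix.one_apply_ne hab, smul_zero]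
  · rfl
  · rfl
  · show blockDiagonal' X ⟨i, a⟩ ⟨j, b⟩ = 0
    have hij : i ≠ j := h
    rw [blockDiagonal'_apply_ne _ _ _ hij]

theorem EG_diag (c : ℂ) (X : ∀ i, Matrix (Fin (n i)) (Fin (n i)) ℂ) (a : B₀) :
    EG (c • (1 : Matrix B₀ B₀ ℂ)) X (Sum.inl a) (Sum.inl a) = c := by
  show (c • (1 : Matrix B₀ B₀ ℂ)) a a = c
  rw [Matrix.smul_apply, Matrix.one_apply_eq, smul_eq_mul, mul_one]

theorem EG_bk (c : ℂ) (X : ∀ i, Matrix (Fin (n i)) (Fin (n i)) ℂ) (i : Fin k) :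
    bk (EG (c • (1 : Matrix B₀ B₀ ℂ)) X) i = X i := by
  ext a b
  show blockDiagonal' X ⟨i, a⟩ ⟨i, b⟩ = X i a b
  rw [blockDiagonal'_apply_eq]

/-- the Tate coordinate of an invertible matrix is not zero -/
theorem tate_ne (b₀ : B₀) {c : ℂ} {X : ∀ i, Matrix (Fin (n i)) (Fin (n i)) ℂ}
    (h : IsUnit (EG (c • (1 : Matrix B₀ B₀ ℂ)) X)) : c ≠ 0 := by
  rintro rfl
  obtain ⟨u, hu⟩ := h
  have h1 : EG ((0 : ℂ) • (1 : Matrix B₀ B₀ ℂ)) X * ((u⁻¹ : (Matrix (IG B₀ n) (IG B₀ n) ℂ)ˣ) : Matrix _ _ ℂ) = 1 := by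
    rw [← hu]
    exact u.mul_inv
  have h2 := congrFun (congrFun h1 (Sum.inl b₀)) (Sum.inl b₀)
  rw [Matrix.mul_apply, Matrix.one_apply_eq] at h2
  rw [Finset.sum_eq_zero] at h2
  · exact zero_ne_one h2
  · intro t _
    have h3 : EG ((0 : ℂ) • (1 : Matrix B₀ B₀ ℂ)) X (Sum.inl b₀) t = 0 := by
      rcases t with b | j
      · show ((0 : ℂ) • (1 : Matrix B₀ B₀ ℂ)) b₀ b = 0
        rw [zero_smul]
        rfl
      · rfl
    rw [h3, zero_mul]

/-- **the torsor is defined over the field of the forms** -/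
theorem FW_sub (b₀ : B₀) (hB : ∀ i, IsUnit (B i)) (hBK : ∀ i a b, B i a b ∈ K) (hQK : ∀ i a b, Q i a b ∈ K)
    (w : Fin k → ℕ) : IsSubtorsor K (FW B₀ B Q w) := by
  refine sub_of_eqs (ι := {s : IG B₀ n × IG B₀ n // offb B₀ n s.1 s.2} ⊕ (B₀ ⊕ Σ i : Fin k, Fin (n i) × Fin (n i)))
    (FW_torsor hB w)
    (Sum.elim (fun s => X s.1) (Sum.elim (fun a => X (Sum.inl a, Sum.inl a) - X (Sum.inl b₀, Sum.inl b₀))
      (fun s => GQ B₀ Q s.1 s.2.1 s.2.2 - X (Sum.inl b₀, Sum.inl b₀) ^ (w s.1) * C (B s.1 s.2.1 s.2.2)))) ?_ fun x => ?_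
  · rintro (s | a | s)
    · exact PK_X _
    · exact Subring.sub_mem _ (PK_X _) (PK_X _)
    · exact Subring.sub_mem _ (GQ_mem hQK _ _ _) (Subring.mul_mem _ (Subring.pow_mem _ (PK_X _) _) (PK_C (hBK _ _ _)))
  · constructor
    · rintro ⟨z, hz, Y, rfl, hY⟩
      have hYu : ∀ i, IsUnit (Y i) := fun i => (sim_inv (pow_ne_zero _ hz) (hB i) (hY i)).1
      refine ⟨EG_unit hz hYu, ?_⟩
      rintro (s | a | s)
      · simp only [Sum.elim_inl, eval_X]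
        exact EG_offb z Y s.2
      · simp only [Sum.elim_inl, Sum.elim_inr, eval_X, map_sub]
        rw [EG_diag, EG_diag, sub_self]
      · simp only [Sum.elim_inr, map_sub, map_mul, map_pow, eval_X, eval_C, GQ_eval]
        rw [EG_diag, EG_bk, hY, Matrix.smul_apply, smul_eq_mul, sub_self]
    · rintro ⟨hu, h⟩
      have h1 : ∀ s t, offb B₀ n s t → x s t = 0 := by
        intro s t hst
        have h2 := h (Sum.inl ⟨(s, t), hst⟩)
        simpa only [Sum.elim_inl, eval_X] using h2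
      have h2 : ∀ a, x (Sum.inl a) (Sum.inl a) = x (Sum.inl b₀) (Sum.inl b₀) := by
        intro a
        have h3 := h (Sum.inr (Sum.inl a))
        simp only [Sum.elim_inl, Sum.elim_inr, eval_X, map_sub] at h3
        exact sub_eq_zero.1 h3
      have h3 := eq_EG b₀ h1 h2
      refine ⟨x (Sum.inl b₀) (Sum.inl b₀), ?_, bk x, h3, fun i => ?_⟩
      · rw [h3] at hu
        exact tate_ne b₀ hu
      · ext a b
        have h4 := h (Sum.inr (Sum.inr ⟨i, (a, b)⟩))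
        simp only [Sum.elim_inr, map_sub, map_mul, map_pow, eval_X, eval_C, GQ_eval] at h4
        rw [Matrix.smul_apply, smul_eq_mul]
        exact sub_eq_zero.1 h4

/-! ### without the Tate object -/

/-- isomorphisms of a sum which respect the polarisations up to one common factor -/
def SM (B Q : ∀ i, Matrix (Fin (n i)) (Fin (n i)) ℂ) : Set (Matrix (Σ i, Fin (n i)) (Σ i, Fin (n i)) ℂ) :=
  {y | ∃ μ : ℂ, μ ≠ 0 ∧ ∃ X : ∀ i, Matrix (Fin (n i)) (Fin (n i)) ℂ, y = blockDiagonal' X ∧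
    ∀ i, X i * Q i * (X i)ᵀ = μ • B i}

theorem bd'_inv {X : ∀ i, Matrix (Fin (n i)) (Fin (n i)) ℂ} (hX : ∀ i, IsUnit (X i)) :
    blockDiagonal' X * blockDiagonal' (fun i => (X i)⁻¹) = 1 := by
  rw [← blockDiagonal'_mul]
  have h5 : (fun i => X i * (X i)⁻¹) = 1 := by
    funext i
    exact Matrix.mul_nonsing_inv _ ((Matrix.isUnit_iff_isUnit_det _).1 (hX i))
  rw [h5, blockDiagonal'_one]

theorem SM_torsor (hB : ∀ i, IsUnit (B i)) : ∀ x ∈ SM B Q, ∀ y ∈ SM B Q, ∀ z ∈ SM B Q, x * y⁻¹ * z ∈ SM B Q := by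
  rintro _ ⟨a, ha, X, rfl, hX⟩ _ ⟨b, hb, Y, rfl, hY⟩ _ ⟨c, hc, Z, rfl, hZ⟩
  have hYu : ∀ i, IsUnit (Y i) := fun i => (sim_inv hb (hB i) (hY i)).1
  refine ⟨a * b⁻¹ * c, mul_ne_zero (mul_ne_zero ha (inv_ne_zero hb)) hc, fun i => X i * (Y i)⁻¹ * Z i, ?_, fun i =>
    sim_mul hb (hB i) (hX i) (hY i) (hZ i)⟩
  rw [Matrix.inv_eq_right_inv (bd'_inv hYu), ← blockDiagonal'_mul, ← blockDiagonal'_mul]

/-- the block `i` -/
def bk' (x : Matrix (Σ i, Fin (n i)) (Σ i, Fin (n i)) ℂ) (i : Fin k) : Matrix (Fin (n i)) (Fin (n i)) ℂ :=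
  Matrix.of fun a b => x ⟨i, a⟩ ⟨i, b⟩

/-- the generic form -/
noncomputable def GS (Q : ∀ i, Matrix (Fin (n i)) (Fin (n i)) ℂ) (i : Fin k) :
    Matrix (Fin (n i)) (Fin (n i)) (MvPolynomial ((Σ i, Fin (n i)) × (Σ i, Fin (n i))) ℂ) :=
  (Matrix.of fun a b => MvPolynomial.X (⟨i, a⟩, ⟨i, b⟩)) * (Q i).map MvPolynomial.C *
    (Matrix.of fun a b => MvPolynomial.X (⟨i, a⟩, ⟨i, b⟩))ᵀ

theorem GS_eval (x : Matrix (Σ i, Fin (n i)) (Σ i, Fin (n i)) ℂ) (i : Fin k) (a b : Fin (n i)) :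
    MvPolynomial.eval (fun s => x s.1 s.2) (GS Q i a b) = (bk' x i * Q i * (bk' x i)ᵀ) a b := by
  unfold GS bk'
  simp only [Matrix.mul_apply, map_sum, map_mul, Matrix.of_apply, Matrix.map_apply, MvPolynomial.eval_X,
    MvPolynomial.eval_C, Matrix.transpose_apply]

theorem GS_mem (hQ : ∀ i a b, Q i a b ∈ K) (i : Fin k) (a b : Fin (n i)) : GS Q i a b ∈ PK K _ := by
  unfold GS
  simp only [Matrix.mul_apply]
  refine Subring.sum_mem _ fun c _ => Subring.mul_mem _ (Subring.sum_mem _ fun d _ => Subring.mul_mem _ ?_ ?_) ?_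
  · exact PK_X _
  · rw [Matrix.map_apply]
    exact PK_C (hQ _ _ _)
  · exact PK_X _

theorem eq_bd' {x : Matrix (Σ i, Fin (n i)) (Σ i, Fin (n i)) ℂ} (h : ∀ s t, s.1 ≠ t.1 → x s t = 0) :
    x = blockDiagonal' (bk' x) := by
  ext ⟨i, a⟩ ⟨j, b⟩
  by_cases hij : i = j
  · subst hij
    rw [blockDiagonal'_apply_eq]
    rfl
  · rw [blockDiagonal'_apply_ne _ _ _ hij]
    exact h _ _ hij

theorem bd'_bk (X : ∀ i, Matrix (Fin (n i)) (Fin (n i)) ℂ) (i : Fin k) : bk' (blockDiagonal' X) i = X i := by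
  ext a b
  show blockDiagonal' X ⟨i, a⟩ ⟨i, b⟩ = X i a b
  rw [blockDiagonal'_apply_eq]

theorem bd'_unit {X : ∀ i, Matrix (Fin (n i)) (Fin (n i)) ℂ} (hX : ∀ i, IsUnit (X i)) : IsUnit (blockDiagonal' X) :=
  IsUnit.of_mul_eq_one _ (bd'_inv hX)

/-- the blocks of an invertible matrix are invertible -/
theorem bd'_block {X : ∀ i, Matrix (Fin (n i)) (Fin (n i)) ℂ} (h : IsUnit (blockDiagonal' X)) (i : Fin k) :
    IsUnit (X i) := by
  have h1 : IsUnit (EG (1 : Matrix (Fin 0) (Fin 0) ℂ) X) := by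
    rw [Matrix.isUnit_iff_isUnit_det]
    unfold EG
    rw [Matrix.det_fromBlocks_zero₂₁, Matrix.det_one, one_mul]
    exact (Matrix.isUnit_iff_isUnit_det _).1 h
  exact EG_block_unit h1 i

theorem SM_sub (i₀ : Fin k) (hn : 0 < n i₀) (hB : ∀ i, IsUnit (B i)) (hQ : ∀ i, IsUnit (Q i))
    (hBK : ∀ i a b, B i a b ∈ K) (hQK : ∀ i a b, Q i a b ∈ K) : IsSubtorsor K (SM B Q) := by
  refine sub_of_eqs (ι := {s : (Σ i, Fin (n i)) × (Σ i, Fin (n i)) // s.1.1 ≠ s.2.1} ⊕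
      ((Σ i : Fin k, Fin (n i) × Fin (n i)) × (Fin (n i₀) × Fin (n i₀)))) (SM_torsor hB)
    (Sum.elim (fun s => X s.1) (fun s => GS Q s.1.1 s.1.2.1 s.1.2.2 * C (B i₀ s.2.1 s.2.2) -
      GS Q i₀ s.2.1 s.2.2 * C (B s.1.1 s.1.2.1 s.1.2.2))) ?_ fun x => ?_
  · rintro (s | s)
    · exact PK_X _
    · exact Subring.sub_mem _ (Subring.mul_mem _ (GS_mem hQK _ _ _) (PK_C (hBK _ _ _)))
        (Subring.mul_mem _ (GS_mem hQK _ _ _) (PK_C (hBK _ _ _)))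
  · constructor
    · rintro ⟨μ, hμ, Y, rfl, hY⟩
      have hYu : ∀ i, IsUnit (Y i) := fun i => (sim_inv hμ (hB i) (hY i)).1
      refine ⟨bd'_unit hYu, ?_⟩
      rintro (s | s)
      · simp only [Sum.elim_inl, eval_X]
        obtain ⟨⟨⟨i, a⟩, ⟨j, b⟩⟩, hij⟩ := s
        exact blockDiagonal'_apply_ne _ _ _ hij
      · simp only [Sum.elim_inr, map_sub, map_mul, eval_C, GS_eval]
        rw [bd'_bk, bd'_bk, hY, hY, Matrix.smul_apply, Matrix.smul_apply, smul_eq_mul, smul_eq_mul]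
        ring
    · rintro ⟨hu, h⟩
      have h1 : ∀ s t : Σ i, Fin (n i), s.1 ≠ t.1 → x s t = 0 := by
        intro s t hst
        have h2 := h (Sum.inl ⟨(s, t), hst⟩)
        simpa only [Sum.elim_inl, eval_X] using h2
      have h3 := eq_bd' h1
      have h4 : ∀ (i : Fin k) (a b : Fin (n i)) (c d : Fin (n i₀)),
          (bk' x i * Q i * (bk' x i)ᵀ) a b * B i₀ c d = (bk' x i₀ * Q i₀ * (bk' x i₀)ᵀ) c d * B i a b := by
        intro i a b c d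
        have h5 := h (Sum.inr (⟨i, (a, b)⟩, (c, d)))
        simp only [Sum.elim_inr, map_sub, map_mul, eval_C, GS_eval] at h5
        exact sub_eq_zero.1 h5
      have hxu : ∀ i, IsUnit (bk' x i) := by
        intro i
        rw [h3] at hu
        exact bd'_block hu i
      -- a nonzero entry
      obtain ⟨c, d, hcd⟩ : ∃ c d, B i₀ c d ≠ 0 := by
        by_contra hcon
        push Not at hcon
        have h6 : B i₀ = 0 := by
          ext a b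
          exact hcon a b
        have h7 := hB i₀
        rw [h6] at h7
        have : Nonempty (Fin (n i₀)) := ⟨⟨0, hn⟩⟩
        exact not_isUnit_zero h7
      refine ⟨(bk' x i₀ * Q i₀ * (bk' x i₀)ᵀ) c d / B i₀ c d, ?_, bk' x, h3, fun i => ?_⟩
      · intro h6
        have h7 : (bk' x i₀ * Q i₀ * (bk' x i₀)ᵀ) c d = 0 := by
          rw [div_eq_zero_iff] at h6
          exact h6.resolve_right hcd
        have h8 : bk' x i₀ * Q i₀ * (bk' x i₀)ᵀ = 0 := by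
          ext a b
          have h9 := h4 i₀ a b c d
          rw [h7, zero_mul] at h9
          exact (mul_eq_zero.1 h9).resolve_right hcd
        have h10 : IsUnit (bk' x i₀ * Q i₀ * (bk' x i₀)ᵀ) := by
          refine ((hxu i₀).mul (hQ i₀)).mul ?_
          rw [Matrix.isUnit_iff_isUnit_det, Matrix.det_transpose]
          exact (Matrix.isUnit_iff_isUnit_det _).1 (hxu i₀)
        rw [h8] at h10
        have : Nonempty (Fin (n i₀)) := ⟨⟨0, hn⟩⟩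
        exact not_isUnit_zero h10
      · ext a b
        rw [Matrix.smul_apply, smul_eq_mul, div_mul_eq_mul_div, eq_div_iff hcd]
        exact h4 i a b c d

/-- the subtorsor with a Tate object added -/
def TT (T : Set (Matrix (Σ i, Fin (n i)) (Σ i, Fin (n i)) ℂ)) : Set (Matrix (IG (Fin 1) n) (IG (Fin 1) n) ℂ) :=
  {y | ∃ z : ℂ, z ≠ 0 ∧ ∃ x ∈ T, y = fromBlocks (z • (1 : Matrix (Fin 1) (Fin 1) ℂ)) 0 0 x}

theorem fb_inv {z : ℂ} (hz : z ≠ 0) {x : Matrix (Σ i, Fin (n i)) (Σ i, Fin (n i)) ℂ} (hx : IsUnit x) :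
    fromBlocks (z • (1 : Matrix (Fin 1) (Fin 1) ℂ)) 0 0 x * fromBlocks (z⁻¹ • (1 : Matrix (Fin 1) (Fin 1) ℂ)) 0 0 x⁻¹ = 1 := by
  rw [fromBlocks_multiply, smul_mul_smul_comm, Matrix.one_mul, mul_inv_cancel₀ hz, one_smul,
    Matrix.mul_nonsing_inv _ ((Matrix.isUnit_iff_isUnit_det _).1 hx)]
  simp

theorem TT_sub {T : Set (Matrix (Σ i, Fin (n i)) (Σ i, Fin (n i)) ℂ)} (hT : IsSubtorsor K T) : IsSubtorsor K (TT T) := by
  obtain ⟨I, hI1, hI2⟩ := hT.algebraic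
  have hex : ∀ p : I, ∃ P0 : MvPolynomial ((Σ i, Fin (n i)) × (Σ i, Fin (n i))) K, MvPolynomial.map (algebraMap K ℂ) P0 = p.1 :=
    fun p => exists_map p.1 (hI1 p.1 p.2)
  refine sub_of_eqs (ι := ((Σ i, Fin (n i)) ⊕ (Σ i, Fin (n i))) ⊕ I) ?_
    (Sum.elim (Sum.elim (fun s => X (Sum.inl 0, Sum.inr s)) (fun s => X (Sum.inr s, Sum.inl 0)))
      (fun p => rename (fun s => (Sum.inr s.1, Sum.inr s.2)) p.1)) ?_ fun x => ?_
  · rintro _ ⟨a, ha, X, hX, rfl⟩ _ ⟨b, hb, Y, hY, rfl⟩ _ ⟨c, hc, Z, hZ, rfl⟩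
    refine ⟨a * b⁻¹ * c, mul_ne_zero (mul_ne_zero ha (inv_ne_zero hb)) hc, X * Y⁻¹ * Z, hT.torsor X hX Y hY Z hZ, ?_⟩
    rw [Matrix.inv_eq_right_inv (fb_inv hb (hT.isUnit Y hY)), fromBlocks_multiply, fromBlocks_multiply,
      smul_mul_smul_comm]
    simp [smul_smul, mul_comm]
  · rintro ((s | s) | p)
    · exact PK_X _
    · exact PK_X _
    · obtain ⟨P0, hP0⟩ := hex p
      simp only [Sum.elim_inr]
      rw [← hP0, ← MvPolynomial.map_rename]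
      exact ⟨_, rfl⟩
  · constructor
    · rintro ⟨z, hz, y, hy, rfl⟩
      refine ⟨IsUnit.of_mul_eq_one _ (fb_inv hz (hT.isUnit y hy)), ?_⟩
      rintro ((s | s) | p)
      · simp only [Sum.elim_inl, eval_X, fromBlocks_apply₁₂]
        rfl
      · simp only [Sum.elim_inl, Sum.elim_inr, eval_X, fromBlocks_apply₂₁]
        rfl
      · simp only [Sum.elim_inr, eval_rename]
        exact ((hI2 y).1 hy).2 p.1 p.2
    · rintro ⟨hu, h⟩
      set y : Matrix (Σ i, Fin (n i)) (Σ i, Fin (n i)) ℂ := Matrix.of fun s t => x (Sum.inr s) (Sum.inr t) with hy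
      have hx : x = fromBlocks (x (Sum.inl 0) (Sum.inl 0) • (1 : Matrix (Fin 1) (Fin 1) ℂ)) 0 0 y := by
        ext s t
        rcases s with a | s <;> rcases t with b | t
        · obtain rfl : a = 0 := Subsingleton.elim _ _
          obtain rfl : b = 0 := Subsingleton.elim _ _
          rw [fromBlocks_apply₁₁, Matrix.smul_apply, Matrix.one_apply_eq, smul_eq_mul, mul_one]
        · obtain rfl : a = 0 := Subsingleton.elim _ _
          have h2 := h (Sum.inl (Sum.inl t))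
          simp only [Sum.elim_inl, eval_X] at h2
          rw [h2]
          rfl
        · obtain rfl : b = 0 := Subsingleton.elim _ _
          have h2 := h (Sum.inl (Sum.inr s))
          simp only [Sum.elim_inl, Sum.elim_inr, eval_X] at h2
          rw [h2]
          rfl
        · rfl
      have hdet := (Matrix.isUnit_iff_isUnit_det _).1 hu
      rw [hx, Matrix.det_fromBlocks_zero₂₁] at hdet
      have h3 := isUnit_of_mul_isUnit_left hdet
      have h4 := isUnit_of_mul_isUnit_right hdet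
      refine ⟨x (Sum.inl 0) (Sum.inl 0), ?_, y, ?_, hx⟩
      · intro h5
        rw [h5, zero_smul, Matrix.det_zero] at h3
        exact not_isUnit_zero h3
      · rw [hI2]
        refine ⟨(Matrix.isUnit_iff_isUnit_det _).2 h4, fun p hp => ?_⟩
        have h5 := h (Sum.inr ⟨p, hp⟩)
        simp only [Sum.elim_inr, eval_rename] at h5
        exact h5

end Pool.Agent.U757.HG
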