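import Pool.Agent.U757.HG.A1
import Pool.Agent.U757.HG.A2

/-!
# Subtorsors which contain the period matrices of fibres of hypergeometric families
-/

set_option autoImplicit false
set_option linter.unusedSectionVars false

open PowerSeries Filter Topology Matrix Module

namespace Pool.Agent.U757.HG

open Pool.Agent.Y119.HY (QD Jm cm)
open Pool.Agent.Y119.HZ (hf Yt Hp hfam_hf ix)
open Pool.Agent.Y120.R Pool.Agent.Y123.GN Pool.Agent.TH127.PT Pool.Agent.Y123.ST Pool.Agent.Y113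

section torsors

variable {B₀ : Type} [Fintype B₀] [DecidableEq B₀] {k : ℕ} {n : Fin k → ℕ} {K : Subfield ℂ}
  {B Q : ∀ i, Matrix (Fin (n i)) (Fin (n i)) ℂ}

/-- all subtorsors over number fields of degree at most `D` with the period matrix are stable under the isometries -/
def St (D : ℕ) (C₀ : Matrix B₀ B₀ ℂ) (Z B : ∀ i, Matrix (Fin (n i)) (Fin (n i)) ℂ) : Prop :=
  ∀ K : Subfield ℂ, FiniteDimensional ℚ K → finrank ℚ K ≤ D → ∀ T : Set (Matrix (IG B₀ n) (IG B₀ n) ℂ),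
    IsSubtorsor K T → EG C₀ Z ∈ T → ∀ g : ∀ i, (Matrix (Fin (n i)) (Fin (n i)) ℂ)ˣ, (∀ i, g i ∈ GB (B i)) →
      ∀ x ∈ T, EG 1 (fun i => (g i : Matrix (Fin (n i)) (Fin (n i)) ℂ)) * x ∈ T

theorem alg_of (hK : FiniteDimensional ℚ K) : ∀ x ∈ K, IsAlgebraic ℚ x := by
  intro x hx
  have : NumberField K := { to_charZero := inferInstance, to_finiteDimensional := hK }
  have h6 : IsAlgebraic ℚ (⟨x, hx⟩ : K) := Algebra.IsAlgebraic.isAlgebraic _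
  exact h6.algebraMap (A := ℂ)

/-- the absolute case: the torsor is contained in all subtorsors -/
theorem FW_le {D : ℕ} {Z : ∀ i, Matrix (Fin (n i)) (Fin (n i)) ℂ} [Nonempty B₀]
    (hst : St D (tpi • (1 : Matrix B₀ B₀ ℂ)) Z B) (hB : ∀ i, Spf (B i)) (hKf : FiniteDimensional ℚ K)
    (hKD : finrank ℚ K ≤ D) (hBK : ∀ i a b, B i a b ∈ K) (hQK : ∀ i a b, Q i a b ∈ K) {w : Fin k → ℕ}
    (hZ : ∀ i, Z i * Q i * (Z i)ᵀ = tpi ^ (w i) • B i) {T : Set (Matrix (IG B₀ n) (IG B₀ n) ℂ)} (hT : IsSubtorsor K T)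
    (hcT : EG (tpi • (1 : Matrix B₀ B₀ ℂ)) Z ∈ T) : FW B₀ B Q w ⊆ T := by
  obtain ⟨b₀⟩ := ‹Nonempty B₀›
  have hS := FW_sub b₀ (fun i => (hB i).1) hBK hQK w
  have hI := Pool.Agent.Y123.ST.inter_sub hT hS
  have hc : EG (tpi • (1 : Matrix B₀ B₀ ℂ)) Z ∈ T ∩ FW B₀ B Q w := ⟨hcT, tpi, tpi_ne, Z, rfl, hZ⟩
  have : Nonempty B₀ := ⟨b₀⟩
  have h1 := absolute (alg_of hKf) hI hc (hst K hKf hKD _ hI hc) (Q := Q) (w := fun i => (w i : ℤ)) (m := fun _ => 0)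
    (δ := fun _ => 0) (by
      rw [← FW_eq hB]
      exact Set.inter_subset_right)
  rw [← FW_eq hB] at h1
  rw [← h1]
  exact Set.inter_subset_left

/-- without the Tate object -/
theorem SM_le {D : ℕ} {Z : ∀ i, Matrix (Fin (n i)) (Fin (n i)) ℂ}
    (hst : St D (tpi • (1 : Matrix (Fin 1) (Fin 1) ℂ)) Z B) (hB : ∀ i, Spf (B i)) (hKf : FiniteDimensional ℚ K)
    (hKD : finrank ℚ K ≤ D) (hBK : ∀ i a b, B i a b ∈ K) (hQK : ∀ i a b, Q i a b ∈ K) {w : ℕ} (hw : 0 < w)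
    (hZ : ∀ i, Z i * Q i * (Z i)ᵀ = tpi ^ w • B i) {T : Set (Matrix (Σ i, Fin (n i)) (Σ i, Fin (n i)) ℂ)}
    (hT : IsSubtorsor K T) (hcT : blockDiagonal' Z ∈ T) : SM B Q ⊆ T := by
  have h1 := FW_le hst hB hKf hKD hBK hQK (w := fun _ => w) hZ (TT_sub hT) ⟨tpi, tpi_ne, _, hcT, rfl⟩
  rintro _ ⟨μ, hμ, X, rfl, hX⟩
  obtain ⟨z, hz⟩ := IsAlgClosed.exists_pow_nat_eq μ hw
  have hz0 : z ≠ 0 := by
    rintro rfl
    apply hμ
    rw [← hz, zero_pow hw.ne']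
  obtain ⟨z', -, x, hx, he⟩ := h1 ⟨z, hz0, X, rfl, fun i => by rw [hz]; exact hX i⟩
  obtain ⟨-, -, -, h2⟩ := Matrix.fromBlocks_inj.1 he
  rw [h2]
  exact hx

end torsors

section count

variable {k : ℕ} {n : Fin k → ℕ} {Q : Fin k → Polynomial ℚ}

/-- the hypergeometric families satisfy the hypotheses of the counting theorem -/
theorem fam_hf {n : ℕ} {Q : Polynomial ℚ} (hQ : QD n Q) (hH : ∀ i j, SDc (Hp n Q i j)) (δ : ℕ) : Fam δ (hf n Q) := by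
  refine ⟨?_, hfam_hf hQ hH δ⟩
  obtain ⟨C₁, -, hs, -⟩ := Pool.Agent.Y119.HY.SDc.unif (y := fun p : Fin n × Fin n => Hp n Q p.1 p.2) fun p => hH p.1 p.2
  exact ⟨C₁, fun j m => hs (ix n j) m⟩

/-- **The counting theorem.** -/
theorem count (k D r : ℕ) (n : Fin k → ℕ) (Q : Fin k → Polynomial ℚ) (hQ : ∀ i, QD (n i) (Q i))
    (hH : ∀ i a b, SDc (Hp (n i) (Q i) a b)) :
    ∃ c C : ℝ, 0 < c ∧ 0 ≤ C ∧ ∀ (B Ω : ∀ i, Matrix (Fin (n i)) (Fin (n i)) ℂ) (lam : Fin k → ℂ), (∀ i, Spf (B i)) →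
      (∀ i, lam i ≠ 0) → (∀ i, (Ω i)ᵀ * cm (Jm (n i) (Q i)) * Ω i = lam i • B i) → ∀ C₀ : Matrix (Fin r) (Fin r) ℂ,
      ∀ (x : Fin k → ℕ) (N : ℕ), 1 ≤ N → ∀ S : Finset (Fin k → ℕ), (∀ t ∈ S, (∀ i, x i < t i ∧ t i ≤ x i + N) ∧
        ¬ St D C₀ (fun i => (Yt (n i) (Q i) (t i) * Ω i)ᵀ) B) →
      (S.card : ℝ) ≤ C * (N : ℝ) ^ (k - 1) * ∑ i, (1 + N / ((x i : ℝ) + N) ^ c) := by
  classical
  obtain ⟨c, C, hc, hC, hmain⟩ := all_main k D (1 + ∑ i, n i) r (fun i => n i * n i) n (fun i => hf (n i) (Q i))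
    fun i δ => fam_hf (hQ i) (hH i) δ
  refine ⟨c, C, hc, hC, ?_⟩
  intro B Ω lam hB hlam hΩ C₀ x N hN S hS
  refine hmain (fun i => pm (n i) (Ω i)) (fun i a b => ?_) C₀ x N hN S fun t ht => ?_
  · refine (pm_deg _ a b).trans (Nat.add_le_add_left ?_ 1)
    exact Finset.single_le_sum (f := n) (fun _ _ => Nat.zero_le _) (Finset.mem_univ i)
  · obtain ⟨hbox, hnot⟩ := hS t ht
    refine ⟨hbox, fun hgood => hnot ?_⟩
    intro K hKf hKD T hT hcT g hg y hy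
    refine hgood K hKf hKD T hT ?_ g (fun i => ?_) y hy
    · have h1 : (fun i => pM (hf (n i) (Q i)) (pm (n i) (Ω i)) (t i : ℝ)) =
          fun i => (Yt (n i) (Q i) (t i) * Ω i)ᵀ := by
        funext i
        rw [pM_pm]
        rfl
      rw [h1]
      exact hcT
    · exact mono_comm (GB_le (hQ i) (hB i).1 (hlam i) (hΩ i)) (cl_perf (Or.inr (Or.inl (hB i)))) (hg i)

/-- two bounds of this kind have a common bound -/
theorem bound_add {k : ℕ} {c c' C C' : ℝ} (hC : 0 ≤ C) (hC' : 0 ≤ C') (x : Fin k → ℕ)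
    {N : ℕ} (hN : 1 ≤ N) :
    C * (N : ℝ) ^ (k - 1) * ∑ i, (1 + N / ((x i : ℝ) + N) ^ c) + C' * (N : ℝ) ^ (k - 1) * ∑ i, (1 + N / ((x i : ℝ) + N) ^ c') ≤
      (C + C') * (N : ℝ) ^ (k - 1) * ∑ i, (1 + N / ((x i : ℝ) + N) ^ (min c c')) := by
  have key : ∀ e : ℝ, min c c' ≤ e → ∑ i, (1 + N / ((x i : ℝ) + N) ^ e) ≤ ∑ i, (1 + N / ((x i : ℝ) + N) ^ (min c c')) := by
    intro e he
    refine Finset.sum_le_sum fun i _ => ?_
    have h1 : (1 : ℝ) ≤ N := by exact_mod_cast hN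
    have h2 : (1 : ℝ) ≤ (x i : ℝ) + N := by
      have : (0 : ℝ) ≤ x i := Nat.cast_nonneg _
      linarith
    have h3 : ((x i : ℝ) + N) ^ (min c c') ≤ ((x i : ℝ) + N) ^ e := Real.rpow_le_rpow_of_exponent_le h2 he
    have h4 : 0 < ((x i : ℝ) + N) ^ (min c c') := Real.rpow_pos_of_pos (by linarith) _
    have h5 : (N : ℝ) / ((x i : ℝ) + N) ^ e ≤ N / ((x i : ℝ) + N) ^ (min c c') :=
      div_le_div_of_nonneg_left (by linarith) h4 h3
    linarith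
  have h0 : 0 ≤ (N : ℝ) ^ (k - 1) := by positivity
  have h1 := mul_le_mul_of_nonneg_left (key c (min_le_left _ _)) (mul_nonneg hC h0)
  have h2 := mul_le_mul_of_nonneg_left (key c' (min_le_right _ _)) (mul_nonneg hC' h0)
  calc _ ≤ C * (N : ℝ) ^ (k - 1) * ∑ i, (1 + N / ((x i : ℝ) + N) ^ (min c c')) +
        C' * (N : ℝ) ^ (k - 1) * ∑ i, (1 + N / ((x i : ℝ) + N) ^ (min c c')) := add_le_add h1 h2
    _ = _ := by ring

end count

end Pool.Agent.U757.HG
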