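import Pool.Agent.U757.HG.A3
import Pool.Agent.Y122.HPDar

/-!
# The smallest subtorsor of a sum is the full preimage of the smallest subtorsor of the constant part
-/

set_option autoImplicit false
set_option linter.unusedSectionVars false

open Matrix MvPolynomial

namespace Pool.Agent.U757.HG

open Pool.Agent.TH127.PT Pool.Agent.Y123.ST
open Pool.Agent.Y123.GN hiding inter_sub

section sect

variable {K : Subfield ℂ} {m : ℕ}

theorem exists_mapM (A : Matrix (Fin m) (Fin m) ℂ) (h : ∀ a b, A a b ∈ K) :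
    ∃ A0 : Matrix (Fin m) (Fin m) K, A0.map (algebraMap K ℂ) = A :=
  ⟨Matrix.of fun a b => ⟨A a b, h a b⟩, by ext a b; rfl⟩

theorem skew_K {A : Matrix (Fin m) (Fin m) ℂ} {A0 : Matrix (Fin m) (Fin m) K} (hA : Spf A)
    (hA0 : A0.map (algebraMap K ℂ) = A) : A0.transpose = -A0 ∧ (∀ i, A0 i i = 0) ∧ A0.det ≠ 0 := by
  have hinj : Function.Injective (algebraMap K ℂ) := (algebraMap K ℂ).injective
  have h1 : A0.transpose = -A0 := by
    ext a b
    have h2 := congrFun (congrFun hA.2 a) b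
    rw [← hA0] at h2
    have h3 : algebraMap K ℂ (A0.transpose a b) = algebraMap K ℂ ((-A0) a b) := by
      rw [Matrix.transpose_apply, Matrix.neg_apply, map_neg]
      exact h2
    exact congrArg Subtype.val (hinj h3)
  refine ⟨h1, fun i => ?_, ?_⟩
  · have h2 := congrFun (congrFun h1 i) i
    rw [Matrix.transpose_apply, Matrix.neg_apply] at h2
    have h3 : A0 i i + A0 i i = 0 := by
      nth_rewrite 1 [h2]
      exact neg_add_cancel _
    have h4 : (2 : K) * A0 i i = 0 := by rw [two_mul]; exact h3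
    exact (mul_eq_zero.1 h4).resolve_left two_ne_zero
  · intro h0
    have h2 : A.det = 0 := by
      rw [← hA0, ← RingHom.mapMatrix_apply, ← RingHom.map_det, h0, map_zero]
    exact ((Matrix.isUnit_iff_isUnit_det _).1 hA.1).ne_zero h2

/-- linear families of similitudes over the field of the forms -/
theorem sect {B Q : Matrix (Fin m) (Fin m) ℂ} (hB : Spf B) (hQ : Spf Q) (hBK : ∀ a b, B a b ∈ K)
    (hQK : ∀ a b, Q a b ∈ K) : ∃ A₁ A₂ : Matrix (Fin m) (Fin m) ℂ, (∀ a b, A₁ a b ∈ K) ∧ (∀ a b, A₂ a b ∈ K) ∧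
      ∀ c : ℂ, (c • A₁ + A₂) * Q * (c • A₁ + A₂)ᵀ = c • B := by
  obtain ⟨B0, hB0⟩ := exists_mapM B hBK
  obtain ⟨Q0, hQ0⟩ := exists_mapM Q hQK
  obtain ⟨b1, b2, b3⟩ := skew_K hB hB0
  obtain ⟨q1, q2, q3⟩ := skew_K hQ hQ0
  obtain ⟨m1, h, U, hU, hUQ⟩ := Pool.Agent.Y122.HPDar.canon Q0 q1 q2 q3
  obtain ⟨m2, h', V, hV, hVB⟩ := Pool.Agent.Y122.HPDar.canon B0 b1 b2 b3
  obtain rfl : m1 = m2 := by omega
  set e := Pool.Agent.Y122.HPDar.en h with he
  set P1 : Matrix (Fin m) (Fin m) K := reindex e e (fromBlocks 1 0 0 0) with hP1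
  set P2 : Matrix (Fin m) (Fin m) K := reindex e e (fromBlocks 0 0 0 1) with hP2
  set φ := algebraMap K ℂ with hφ
  have hmm : ∀ X Y : Matrix (Fin m) (Fin m) K, (X * Y).map φ = X.map φ * Y.map φ := fun X Y => Matrix.map_mul
  have hVu : IsUnit V.det := isUnit_iff_ne_zero.2 hV
  set W := (V⁻¹).map φ with hW
  set U' := U.map φ with hU'
  set V' := V.map φ with hV'
  have hWV : W * V' = 1 := by
    rw [hW, hV', ← hmm, Matrix.nonsing_inv_mul _ hVu]
    exact Matrix.map_one φ (map_zero φ) (map_one φ)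
  have hJ : (reindex e e (Pool.Agent.Y122.HPDar.jj K m1)).map φ = reindex e e (Pool.Agent.Y122.HPDar.jj ℂ m1) := by
    ext a b
    simp only [Matrix.map_apply, reindex_apply, submatrix_apply, Pool.Agent.Y122.HPDar.jj]
    rcases e.symm a with i | i <;> rcases e.symm b with j | j
    · simp
    · simp only [fromBlocks_apply₁₂, Matrix.one_apply]
      split_ifs <;> simp
    · simp only [fromBlocks_apply₂₁, Matrix.neg_apply, Matrix.one_apply]
      split_ifs <;> simp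
    · simp
  have hU1 : U' * Q * U'ᵀ = reindex e e (Pool.Agent.Y122.HPDar.jj ℂ m1) := by
    rw [← hJ, ← hUQ, hmm, hmm, ← hQ0, hU', Matrix.transpose_map]
  have hV1 : V' * B * V'ᵀ = reindex e e (Pool.Agent.Y122.HPDar.jj ℂ m1) := by
    rw [← hJ, ← hVB, hmm, hmm, ← hB0, hV', Matrix.transpose_map]
  have hD : ∀ c : ℂ, c • P1.map φ + P2.map φ = reindex e e (fromBlocks (c • 1) 0 0 1) := by
    intro c
    ext a b
    simp only [hP1, hP2, Matrix.add_apply, Matrix.smul_apply, Matrix.map_apply, reindex_apply, submatrix_apply]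
    rcases e.symm a with i | i <;> rcases e.symm b with j | j
    · simp only [fromBlocks_apply₁₁, Matrix.smul_apply, Matrix.one_apply, Matrix.zero_apply, map_zero, add_zero]
      split_ifs <;> simp
    · simp
    · simp
    · simp only [fromBlocks_apply₂₂, Matrix.one_apply, Matrix.zero_apply, map_zero, smul_zero, zero_add]
      split_ifs <;> simp
  have hDJ : ∀ c : ℂ, (c • P1.map φ + P2.map φ) * reindex e e (Pool.Agent.Y122.HPDar.jj ℂ m1) *
      (c • P1.map φ + P2.map φ)ᵀ = c • reindex e e (Pool.Agent.Y122.HPDar.jj ℂ m1) := by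
    intro c
    rw [hD]
    simp only [reindex_apply, transpose_submatrix, submatrix_mul_equiv]
    have h1 : fromBlocks (c • (1 : Matrix (Fin m1) (Fin m1) ℂ)) 0 0 1 * Pool.Agent.Y122.HPDar.jj ℂ m1 *
        (fromBlocks (c • (1 : Matrix (Fin m1) (Fin m1) ℂ)) 0 0 1)ᵀ = c • Pool.Agent.Y122.HPDar.jj ℂ m1 := by
      unfold Pool.Agent.Y122.HPDar.jj
      rw [fromBlocks_transpose, fromBlocks_multiply, fromBlocks_multiply, fromBlocks_smul]
      simp
    rw [h1]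
    rfl
  refine ⟨(V⁻¹ * P1 * U).map φ, (V⁻¹ * P2 * U).map φ, fun a b => ((V⁻¹ * P1 * U) a b).2,
    fun a b => ((V⁻¹ * P2 * U) a b).2, fun c => ?_⟩
  have h1 : c • (V⁻¹ * P1 * U).map φ + (V⁻¹ * P2 * U).map φ = W * (c • P1.map φ + P2.map φ) * U' := by
    rw [hmm, hmm, hmm, hmm, Matrix.mul_add, Matrix.add_mul, Matrix.mul_smul, Matrix.smul_mul]
  rw [h1]
  have hB1 : B = W * reindex e e (Pool.Agent.Y122.HPDar.jj ℂ m1) * Wᵀ := by
    have h2 : V'ᵀ * Wᵀ = 1 := by rw [← Matrix.transpose_mul, hWV, Matrix.transpose_one]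
    calc B = (W * V') * B * (V'ᵀ * Wᵀ) := by rw [hWV, h2, Matrix.one_mul, Matrix.mul_one]
      _ = W * (V' * B * V'ᵀ) * Wᵀ := by simp only [Matrix.mul_assoc]
      _ = _ := by rw [hV1]
  calc W * (c • P1.map φ + P2.map φ) * U' * Q * (W * (c • P1.map φ + P2.map φ) * U')ᵀ =
      W * ((c • P1.map φ + P2.map φ) * (U' * Q * U'ᵀ) * (c • P1.map φ + P2.map φ)ᵀ) * Wᵀ := by
        rw [Matrix.transpose_mul, Matrix.transpose_mul]
        simp only [Matrix.mul_assoc]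
    _ = c • B := by
        rw [hU1, hDJ, Matrix.mul_smul, Matrix.smul_mul, ← hB1]

end sect

section split

variable {B₀ : Type} [Fintype B₀] [DecidableEq B₀] {K : Subfield ℂ} {l : B₀}

/-- the coordinate `l` is a direct summand -/
def Spl (l : B₀) (x : Matrix B₀ B₀ ℂ) : Prop := ∀ a, a ≠ l → x a l = 0 ∧ x l a = 0

theorem Spl.mul_row {x : Matrix B₀ B₀ ℂ} (hx : Spl l x) (y : Matrix B₀ B₀ ℂ) (b : B₀) : (x * y) l b = x l l * y l b := by
  rw [Matrix.mul_apply, Finset.sum_eq_single l]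
  · intro c _ hc
    rw [(hx c hc).2, zero_mul]
  · intro h
    exact absurd (Finset.mem_univ _) h

theorem Spl.mul_col {y : Matrix B₀ B₀ ℂ} (hy : Spl l y) (x : Matrix B₀ B₀ ℂ) (a : B₀) : (x * y) a l = x a l * y l l := by
  rw [Matrix.mul_apply, Finset.sum_eq_single l]
  · intro c _ hc
    rw [(hy c hc).1, mul_zero]
  · intro h
    exact absurd (Finset.mem_univ _) h

theorem Spl.mul {x y : Matrix B₀ B₀ ℂ} (hx : Spl l x) (hy : Spl l y) : Spl l (x * y) := fun a ha =>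
  ⟨by rw [hy.mul_col, (hx a ha).1, zero_mul], by rw [hx.mul_row, (hy a ha).2, mul_zero]⟩

theorem Spl.ne {x : Matrix B₀ B₀ ℂ} (hx : Spl l x) (hu : IsUnit x) : x l l ≠ 0 := by
  intro h0
  have h1 : x * x⁻¹ = 1 := Matrix.mul_nonsing_inv _ ((Matrix.isUnit_iff_isUnit_det _).1 hu)
  have h2 := congrFun (congrFun h1 l) l
  rw [hx.mul_row, h0, zero_mul, Matrix.one_apply_eq] at h2
  exact zero_ne_one h2

theorem Spl.inv {x : Matrix B₀ B₀ ℂ} (hx : Spl l x) (hu : IsUnit x) : Spl l x⁻¹ ∧ x⁻¹ l l = (x l l)⁻¹ := by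
  have h1 : x * x⁻¹ = 1 := Matrix.mul_nonsing_inv _ ((Matrix.isUnit_iff_isUnit_det _).1 hu)
  have h2 : x⁻¹ * x = 1 := Matrix.nonsing_inv_mul _ ((Matrix.isUnit_iff_isUnit_det _).1 hu)
  have h0 := hx.ne hu
  refine ⟨fun a ha => ⟨?_, ?_⟩, ?_⟩
  · have h3 := congrFun (congrFun h2 a) l
    rw [hx.mul_col, Matrix.one_apply_ne ha] at h3
    exact (mul_eq_zero.1 h3).resolve_right h0
  · have h3 := congrFun (congrFun h1 l) a
    rw [hx.mul_row, Matrix.one_apply_ne (Ne.symm ha)] at h3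
    exact (mul_eq_zero.1 h3).resolve_left h0
  · have h3 := congrFun (congrFun h1 l) l
    rw [hx.mul_row, Matrix.one_apply_eq] at h3
    exact eq_inv_of_mul_eq_one_right h3

/-- in a torsor of matrices of this kind the coordinate is multiplicative -/
theorem Spl.triple {x y z : Matrix B₀ B₀ ℂ} (hx : Spl l x) (hy : Spl l y) (hyu : IsUnit y) :
    (x * y⁻¹ * z) l l = x l l * (y l l)⁻¹ * z l l := by
  rw [(hx.mul (hy.inv hyu).1).mul_row, hx.mul_row, (hy.inv hyu).2]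

theorem spl_sub (l : B₀) : IsSubtorsor K {x : Matrix B₀ B₀ ℂ | IsUnit x ∧ Spl l x} := by
  refine sub_of_eqs (ι := {a // a ≠ l} ⊕ {a // a ≠ l}) ?_
    (Sum.elim (fun a => X (a.1, l)) (fun a => X (l, a.1))) ?_ fun x => ?_
  · rintro x ⟨hxu, hx⟩ y ⟨hyu, hy⟩ z ⟨hzu, hz⟩
    refine ⟨(hxu.mul ?_).mul hzu, (hx.mul (hy.inv hyu).1).mul hz⟩
    exact (Matrix.isUnit_nonsing_inv_iff).2 hyu
  · rintro (a | a)
    · exact PK_X _
    · exact PK_X _
  · constructor
    · rintro ⟨hu, hx⟩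
      refine ⟨hu, ?_⟩
      rintro (a | a)
      · simp only [Sum.elim_inl, eval_X]
        exact (hx a.1 a.2).1
      · simp only [Sum.elim_inr, eval_X]
        exact (hx a.1 a.2).2
    · rintro ⟨hu, h⟩
      refine ⟨hu, fun a ha => ⟨?_, ?_⟩⟩
      · have h1 := h (Sum.inl ⟨a, ha⟩)
        simpa only [Sum.elim_inl, eval_X] using h1
      · have h1 := h (Sum.inr ⟨a, ha⟩)
        simpa only [Sum.elim_inr, eval_X] using h1

end split

section product

variable {B₀ : Type} [Fintype B₀] [DecidableEq B₀] {k : ℕ} {n : Fin k → ℕ} {K : Subfield ℂ} {l : B₀}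
  {B Q : ∀ i, Matrix (Fin (n i)) (Fin (n i)) ℂ}

/-- the fibre product of `Ω` and the torsor of similitudes over the coordinate `l` -/
def PS (l : B₀) (Ω : Set (Matrix B₀ B₀ ℂ)) (B Q : ∀ i, Matrix (Fin (n i)) (Fin (n i)) ℂ) (w : Fin k → ℕ) :
    Set (Matrix (IG B₀ n) (IG B₀ n) ℂ) :=
  {y | ∃ x ∈ Ω, ∃ X : ∀ i, Matrix (Fin (n i)) (Fin (n i)) ℂ, y = EG x X ∧
    ∀ i, X i * Q i * (X i)ᵀ = (x l l) ^ (w i) • B i}

theorem EG_inv' {x : Matrix B₀ B₀ ℂ} (hx : IsUnit x) {X : ∀ i, Matrix (Fin (n i)) (Fin (n i)) ℂ} (hX : ∀ i, IsUnit (X i)) :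
    EG x X * EG x⁻¹ (fun i => (X i)⁻¹) = 1 := by
  rw [EG_mul, Matrix.mul_nonsing_inv _ ((Matrix.isUnit_iff_isUnit_det _).1 hx)]
  have h5 : (fun i => X i * (X i)⁻¹) = 1 := by
    funext i
    exact Matrix.mul_nonsing_inv _ ((Matrix.isUnit_iff_isUnit_det _).1 (hX i))
  rw [h5, EG_one]

theorem EG_unit' {x : Matrix B₀ B₀ ℂ} (hx : IsUnit x) {X : ∀ i, Matrix (Fin (n i)) (Fin (n i)) ℂ}
    (hX : ∀ i, IsUnit (X i)) : IsUnit (EG x X) := IsUnit.of_mul_eq_one _ (EG_inv' hx hX)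

/-- the first block of an invertible matrix is invertible -/
theorem EG_unit_fst {x : Matrix B₀ B₀ ℂ} {X : ∀ i, Matrix (Fin (n i)) (Fin (n i)) ℂ} (h : IsUnit (EG x X)) :
    IsUnit x := by
  have h1 := (Matrix.isUnit_iff_isUnit_det _).1 h
  unfold EG at h1
  rw [Matrix.det_fromBlocks_zero₂₁] at h1
  exact (Matrix.isUnit_iff_isUnit_det _).2 (isUnit_of_mul_isUnit_left h1)

theorem PS_torsor {Ω : Set (Matrix B₀ B₀ ℂ)} (hΩ : IsSubtorsor K Ω) (hspl : ∀ x ∈ Ω, Spl l x) (hB : ∀ i, IsUnit (B i))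
    (w : Fin k → ℕ) : ∀ x ∈ PS l Ω B Q w, ∀ y ∈ PS l Ω B Q w, ∀ z ∈ PS l Ω B Q w, x * y⁻¹ * z ∈ PS l Ω B Q w := by
  rintro _ ⟨a, ha, X, rfl, hX⟩ _ ⟨b, hb, Y, rfl, hY⟩ _ ⟨c, hc, Z, rfl, hZ⟩
  have hbl : b l l ≠ 0 := (hspl b hb).ne (hΩ.isUnit b hb)
  have hYu : ∀ i, IsUnit (Y i) := fun i => (sim_inv (pow_ne_zero _ hbl) (hB i) (hY i)).1
  refine ⟨a * b⁻¹ * c, hΩ.torsor a ha b hb c hc, fun i => X i * (Y i)⁻¹ * Z i, ?_, fun i => ?_⟩
  · rw [Matrix.inv_eq_right_inv (EG_inv' (hΩ.isUnit b hb) hYu), EG_mul, EG_mul]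
  · rw [sim_mul (pow_ne_zero _ hbl) (hB i) (hX i) (hY i) (hZ i),
      (hspl a ha).triple (hspl b hb) (hΩ.isUnit b hb)]
    congr 1
    rw [mul_pow, mul_pow, inv_pow]

/-- the positions outside of the blocks -/
def offc (B₀ : Type) {k : ℕ} (n : Fin k → ℕ) : IG B₀ n → IG B₀ n → Prop
  | Sum.inl _, Sum.inl _ => False
  | Sum.inl _, Sum.inr _ => True
  | Sum.inr _, Sum.inl _ => True
  | Sum.inr s, Sum.inr t => s.1 ≠ t.1

/-- the block `B₀` -/
def b0 (x : Matrix (IG B₀ n) (IG B₀ n) ℂ) : Matrix B₀ B₀ ℂ := Matrix.of fun a b => x (Sum.inl a) (Sum.inl b)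

theorem eq_EGc {x : Matrix (IG B₀ n) (IG B₀ n) ℂ} (h1 : ∀ s t, offc B₀ n s t → x s t = 0) : x = EG (b0 x) (bk x) := by
  ext s t
  rcases s with a | ⟨i, a⟩ <;> rcases t with b | ⟨j, b⟩
  · rfl
  · exact h1 _ _ trivial
  · exact h1 _ _ trivial
  · show _ = blockDiagonal' (bk x) ⟨i, a⟩ ⟨j, b⟩
    by_cases hij : i = j
    · subst hij
      rw [blockDiagonal'_apply_eq]
      rfl
    · rw [blockDiagonal'_apply_ne _ _ _ hij]
      exact h1 _ _ hij

theorem EG_offc (x : Matrix B₀ B₀ ℂ) (X : ∀ i, Matrix (Fin (n i)) (Fin (n i)) ℂ) {s t : IG B₀ n} (h : offc B₀ n s t) :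
    EG x X s t = 0 := by
  rcases s with a | ⟨i, a⟩ <;> rcases t with b | ⟨j, b⟩
  · exact absurd h id
  · rfl
  · rfl
  · show blockDiagonal' X ⟨i, a⟩ ⟨j, b⟩ = 0
    have hij : i ≠ j := h
    rw [blockDiagonal'_apply_ne _ _ _ hij]

theorem EG_bkc (x : Matrix B₀ B₀ ℂ) (X : ∀ i, Matrix (Fin (n i)) (Fin (n i)) ℂ) (i : Fin k) : bk (EG x X) i = X i := by
  ext a b
  show blockDiagonal' X ⟨i, a⟩ ⟨i, b⟩ = X i a b
  rw [blockDiagonal'_apply_eq]

theorem b0_EG (x : Matrix B₀ B₀ ℂ) (X : ∀ i, Matrix (Fin (n i)) (Fin (n i)) ℂ) : b0 (EG x X) = x := rfl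

theorem PS_sub {Ω : Set (Matrix B₀ B₀ ℂ)} (hΩ : IsSubtorsor K Ω) (hspl : ∀ x ∈ Ω, Spl l x) (hB : ∀ i, IsUnit (B i))
    (hBK : ∀ i a b, B i a b ∈ K) (hQK : ∀ i a b, Q i a b ∈ K) (w : Fin k → ℕ) : IsSubtorsor K (PS l Ω B Q w) := by
  obtain ⟨I, hI1, hI2⟩ := hΩ.algebraic
  have hex : ∀ p : I, ∃ P0 : MvPolynomial (B₀ × B₀) K, MvPolynomial.map (algebraMap K ℂ) P0 = p.1 :=
    fun p => exists_map p.1 (hI1 p.1 p.2)
  refine sub_of_eqs (ι := {s : IG B₀ n × IG B₀ n // offc B₀ n s.1 s.2} ⊕ (I ⊕ Σ i : Fin k, Fin (n i) × Fin (n i)))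
    (PS_torsor hΩ hspl hB w)
    (Sum.elim (fun s => X s.1) (Sum.elim (fun p => rename (fun s => (Sum.inl s.1, Sum.inl s.2)) p.1)
      (fun s => GQ B₀ Q s.1 s.2.1 s.2.2 - X (Sum.inl l, Sum.inl l) ^ (w s.1) * C (B s.1 s.2.1 s.2.2)))) ?_ fun x => ?_
  · rintro (s | p | s)
    · exact PK_X _
    · obtain ⟨P0, hP0⟩ := hex p
      simp only [Sum.elim_inl, Sum.elim_inr]
      rw [← hP0, ← MvPolynomial.map_rename]
      exact ⟨_, rfl⟩
    · exact Subring.sub_mem _ (GQ_mem hQK _ _ _) (Subring.mul_mem _ (Subring.pow_mem _ (PK_X _) _) (PK_C (hBK _ _ _)))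
  · constructor
    · rintro ⟨y, hy, Y, rfl, hY⟩
      have hyl : y l l ≠ 0 := (hspl y hy).ne (hΩ.isUnit y hy)
      have hYu : ∀ i, IsUnit (Y i) := fun i => (sim_inv (pow_ne_zero _ hyl) (hB i) (hY i)).1
      refine ⟨EG_unit' (hΩ.isUnit y hy) hYu, ?_⟩
      rintro (s | p | s)
      · simp only [Sum.elim_inl, eval_X]
        exact EG_offc y Y s.2
      · simp only [Sum.elim_inl, Sum.elim_inr, eval_rename]
        exact ((hI2 y).1 hy).2 p.1 p.2
      · simp only [Sum.elim_inr, map_sub, map_mul, map_pow, eval_X, eval_C, GQ_eval]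
        have h1 : EG y Y (Sum.inl l) (Sum.inl l) = y l l := rfl
        rw [h1, EG_bkc, hY, Matrix.smul_apply, smul_eq_mul, sub_self]
    · rintro ⟨hu, h⟩
      have h1 : ∀ s t, offc B₀ n s t → x s t = 0 := by
        intro s t hst
        have h2 := h (Sum.inl ⟨(s, t), hst⟩)
        simpa only [Sum.elim_inl, eval_X] using h2
      have h3 := eq_EGc h1
      refine ⟨b0 x, ?_, bk x, h3, fun i => ?_⟩
      · rw [hI2]
        refine ⟨?_, fun p hp => ?_⟩
        · rw [h3] at hu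
          exact EG_unit_fst hu
        · have h5 := h (Sum.inr (Sum.inl ⟨p, hp⟩))
          simp only [Sum.elim_inl, Sum.elim_inr, eval_rename] at h5
          exact h5
      · ext a b
        have h4 := h (Sum.inr (Sum.inr ⟨i, (a, b)⟩))
        simp only [Sum.elim_inr, map_sub, map_mul, map_pow, eval_X, eval_C, GQ_eval] at h4
        rw [Matrix.smul_apply, smul_eq_mul]
        exact sub_eq_zero.1 h4

theorem PK_of {σ : Type} [Fintype σ] [DecidableEq σ] {p : MvPolynomial σ ℂ} (h : ∀ m, p.coeff m ∈ K) : p ∈ PK K σ := by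
  obtain ⟨P0, hP0⟩ := exists_map p h
  exact ⟨P0, hP0⟩

/-- the substitution of a matrix over the polynomials -/
theorem subst_mem {σ τ : Type*} {g : σ → MvPolynomial τ ℂ} (hg : ∀ s, g s ∈ PK K τ) {p : MvPolynomial σ ℂ}
    (hp : ∀ m, p.coeff m ∈ K) : MvPolynomial.aeval g p ∈ PK K τ := by
  rw [MvPolynomial.as_sum p, map_sum]
  refine Subring.sum_mem _ fun m _ => ?_
  rw [MvPolynomial.aeval_monomial]
  refine Subring.mul_mem _ (PK_C (hp m)) ?_
  exact Subring.prod_mem _ fun s _ => Subring.pow_mem _ (hg s) _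

theorem subst_eval {σ τ : Type*} (g : σ → MvPolynomial τ ℂ) (f : τ → ℂ) (p : MvPolynomial σ ℂ) :
    MvPolynomial.eval f (MvPolynomial.aeval g p) = MvPolynomial.eval (fun s => MvPolynomial.eval f (g s)) p := by
  have h : (MvPolynomial.eval f).comp (MvPolynomial.aeval g : MvPolynomial σ ℂ →ₐ[ℂ] MvPolynomial τ ℂ).toRingHom =
      MvPolynomial.eval (fun s => MvPolynomial.eval f (g s)) := by
    refine MvPolynomial.ringHom_ext (fun a => ?_) fun s => ?_
    · simp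
    · simp
  exact RingHom.congr_fun h p

end product

end Pool.Agent.U757.HG
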