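import Pool.Agent.U757.HG.A4

/-!
# The smallest subtorsor of a sum is the full preimage of the smallest subtorsor of the constant part, the proof
-/

set_option autoImplicit false
set_option linter.unusedSectionVars false

open Matrix MvPolynomial

namespace Pool.Agent.U757.HG

open Pool.Agent.TH127.PT Pool.Agent.Y123.ST
open Pool.Agent.Y123.GN hiding inter_sub

section product

variable {B₀ : Type} [Fintype B₀] [DecidableEq B₀] {k : ℕ} {n : Fin k → ℕ} {K : Subfield ℂ} {l : B₀}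
  {B Q : ∀ i, Matrix (Fin (n i)) (Fin (n i)) ℂ}

/-- the section -/
noncomputable def Sc (A₁ A₂ : ∀ i, Matrix (Fin (n i)) (Fin (n i)) ℂ) (w : Fin k → ℕ) (z : ℂ) (i : Fin k) :
    Matrix (Fin (n i)) (Fin (n i)) ℂ := z ^ (w i) • A₁ i + A₂ i

/-- the blocks of the generic section -/
noncomputable def Gb (l : B₀) (A₁ A₂ : ∀ i, Matrix (Fin (n i)) (Fin (n i)) ℂ) (w : Fin k → ℕ) (i : Fin k) :
    Matrix (Fin (n i)) (Fin (n i)) (MvPolynomial (B₀ × B₀) ℂ) :=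
  (X (l, l) : MvPolynomial (B₀ × B₀) ℂ) ^ (w i) • (A₁ i).map C + (A₂ i).map C

/-- the generic section -/
noncomputable def Gc (l : B₀) (A₁ A₂ : ∀ i, Matrix (Fin (n i)) (Fin (n i)) ℂ) (w : Fin k → ℕ) :
    Matrix (IG B₀ n) (IG B₀ n) (MvPolynomial (B₀ × B₀) ℂ) :=
  fromBlocks (Matrix.of fun a b => X (a, b)) 0 0 (blockDiagonal' (Gb l A₁ A₂ w))

theorem Gb_mem {A₁ A₂ : ∀ i, Matrix (Fin (n i)) (Fin (n i)) ℂ} (hA₁ : ∀ i a b, A₁ i a b ∈ K) (hA₂ : ∀ i a b, A₂ i a b ∈ K)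
    (w : Fin k → ℕ) (i : Fin k) (a b : Fin (n i)) : Gb l A₁ A₂ w i a b ∈ PK K (B₀ × B₀) := by
  unfold Gb
  rw [Matrix.add_apply, Matrix.smul_apply, Matrix.map_apply, Matrix.map_apply, smul_eq_mul]
  exact Subring.add_mem _ (Subring.mul_mem _ (Subring.pow_mem _ (PK_X _) _) (PK_C (hA₁ _ _ _))) (PK_C (hA₂ _ _ _))

theorem Gb_eval (A₁ A₂ : ∀ i, Matrix (Fin (n i)) (Fin (n i)) ℂ) (w : Fin k → ℕ) (x : Matrix B₀ B₀ ℂ) (i : Fin k)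
    (a b : Fin (n i)) :
    MvPolynomial.eval (fun s : B₀ × B₀ => x s.1 s.2) (Gb l A₁ A₂ w i a b) = Sc A₁ A₂ w (x l l) i a b := by
  unfold Gb Sc
  rw [Matrix.add_apply, Matrix.smul_apply, Matrix.map_apply, Matrix.map_apply, smul_eq_mul, Matrix.add_apply,
    Matrix.smul_apply, smul_eq_mul]
  simp only [map_add, map_mul, map_pow, eval_X, eval_C]

theorem Gc_mem {A₁ A₂ : ∀ i, Matrix (Fin (n i)) (Fin (n i)) ℂ} (hA₁ : ∀ i a b, A₁ i a b ∈ K) (hA₂ : ∀ i a b, A₂ i a b ∈ K)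
    (w : Fin k → ℕ) (s t : IG B₀ n) : Gc l A₁ A₂ w s t ∈ PK K (B₀ × B₀) := by
  rcases s with a | ⟨i, a⟩ <;> rcases t with b | ⟨j, b⟩
  · exact PK_X _
  · exact Subring.zero_mem _
  · exact Subring.zero_mem _
  · show blockDiagonal' (Gb l A₁ A₂ w) ⟨i, a⟩ ⟨j, b⟩ ∈ PK K (B₀ × B₀)
    by_cases hij : i = j
    · subst hij
      rw [blockDiagonal'_apply_eq]
      exact Gb_mem hA₁ hA₂ w i a b
    · rw [blockDiagonal'_apply_ne _ _ _ hij]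
      exact Subring.zero_mem _

theorem Gc_eval (A₁ A₂ : ∀ i, Matrix (Fin (n i)) (Fin (n i)) ℂ) (w : Fin k → ℕ) (x : Matrix B₀ B₀ ℂ) (s t : IG B₀ n) :
    MvPolynomial.eval (fun s : B₀ × B₀ => x s.1 s.2) (Gc l A₁ A₂ w s t) = EG x (Sc A₁ A₂ w (x l l)) s t := by
  rcases s with a | ⟨i, a⟩ <;> rcases t with b | ⟨j, b⟩
  · show MvPolynomial.eval (fun s : B₀ × B₀ => x s.1 s.2) (X (a, b)) = x a b
    rw [eval_X]
  · exact map_zero _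
  · exact map_zero _
  · show MvPolynomial.eval (fun s : B₀ × B₀ => x s.1 s.2) (blockDiagonal' (Gb l A₁ A₂ w) ⟨i, a⟩ ⟨j, b⟩) =
      blockDiagonal' (Sc A₁ A₂ w (x l l)) ⟨i, a⟩ ⟨j, b⟩
    by_cases hij : i = j
    · subst hij
      rw [blockDiagonal'_apply_eq, blockDiagonal'_apply_eq]
      exact Gb_eval A₁ A₂ w x i a b
    · rw [blockDiagonal'_apply_ne _ _ _ hij, blockDiagonal'_apply_ne _ _ _ hij, map_zero]

/-- the equations of the preimage under the section -/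
theorem sec_eval (A₁ A₂ : ∀ i, Matrix (Fin (n i)) (Fin (n i)) ℂ) (w : Fin k → ℕ) (x : Matrix B₀ B₀ ℂ)
    (p : MvPolynomial (IG B₀ n × IG B₀ n) ℂ) :
    MvPolynomial.eval (fun s : B₀ × B₀ => x s.1 s.2) (MvPolynomial.aeval (fun s : IG B₀ n × IG B₀ n => Gc l A₁ A₂ w s.1 s.2) p) =
      MvPolynomial.eval (fun s : IG B₀ n × IG B₀ n => EG x (Sc A₁ A₂ w (x l l)) s.1 s.2) p := by
  rw [subst_eval]
  simp only [Gc_eval]

/-- the equations are over `K` -/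
theorem sec_mem {A₁ A₂ : ∀ i, Matrix (Fin (n i)) (Fin (n i)) ℂ} (hA₁ : ∀ i a b, A₁ i a b ∈ K) (hA₂ : ∀ i a b, A₂ i a b ∈ K)
    (w : Fin k → ℕ) {p : MvPolynomial (IG B₀ n × IG B₀ n) ℂ} (hp : ∀ m, p.coeff m ∈ K) :
    MvPolynomial.aeval (fun s : IG B₀ n × IG B₀ n => Gc l A₁ A₂ w s.1 s.2) p ∈ PK K (B₀ × B₀) := by
  have h := subst_mem (K := K) (g := fun s : IG B₀ n × IG B₀ n => Gc l A₁ A₂ w s.1 s.2)
    (fun s => Gc_mem (K := K) hA₁ hA₂ w s.1 s.2) hp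
  exact h

/-- the base of a subtorsor -/
def Bs (Ω : Set (Matrix B₀ B₀ ℂ)) (T : Set (Matrix (IG B₀ n) (IG B₀ n) ℂ)) : Set (Matrix B₀ B₀ ℂ) :=
  {x | x ∈ Ω ∧ ∃ X : ∀ i, Matrix (Fin (n i)) (Fin (n i)) ℂ, EG x X ∈ T}

theorem Bs_torsor {Ω : Set (Matrix B₀ B₀ ℂ)} (hΩ : IsSubtorsor K Ω) {T : Set (Matrix (IG B₀ n) (IG B₀ n) ℂ)}
    (hT : IsSubtorsor K T) : ∀ x ∈ Bs Ω T, ∀ y ∈ Bs Ω T, ∀ z ∈ Bs Ω T, x * y⁻¹ * z ∈ Bs Ω T := by
  rintro x ⟨hx, X, hX⟩ y ⟨hy, Y, hY⟩ z ⟨hz, Z, hZ⟩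
  refine ⟨hΩ.torsor x hx y hy z hz, fun i => X i * (Y i)⁻¹ * Z i, ?_⟩
  have h1 := hT.torsor _ hX _ hY _ hZ
  have hYu : ∀ i, IsUnit (Y i) := EG_block_unit (hT.isUnit _ hY)
  rw [Matrix.inv_eq_right_inv (EG_inv' (hΩ.isUnit y hy) hYu), EG_mul, EG_mul] at h1
  exact h1

/-- the base of a stable subtorsor of the fibre product -/
theorem base_sub {Ω : Set (Matrix B₀ B₀ ℂ)} (hΩ : IsSubtorsor K Ω) (hspl : ∀ x ∈ Ω, Spl l x) (hB : ∀ i, Spf (B i))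
    (hQ : ∀ i, Spf (Q i)) (hBK : ∀ i a b, B i a b ∈ K) (hQK : ∀ i a b, Q i a b ∈ K) (w : Fin k → ℕ)
    {T : Set (Matrix (IG B₀ n) (IG B₀ n) ℂ)} (hT : IsSubtorsor K T) (hTP : T ⊆ PS l Ω B Q w)
    (hst : ∀ g : ∀ i, (Matrix (Fin (n i)) (Fin (n i)) ℂ)ˣ, (∀ i, g i ∈ GB (B i)) →
      ∀ x ∈ T, EG 1 (fun i => (g i : Matrix (Fin (n i)) (Fin (n i)) ℂ)) * x ∈ T) :
    IsSubtorsor K (Bs Ω T) := by
  obtain ⟨I, hI1, hI2⟩ := hΩ.algebraic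
  obtain ⟨I', hI1', hI2'⟩ := hT.algebraic
  choose A₁ A₂ hA₁ hA₂ hA using fun i => sect (hB i) (hQ i) (hBK i) (hQK i)
  have hS : ∀ z i, Sc A₁ A₂ w z i * Q i * (Sc A₁ A₂ w z i)ᵀ = z ^ (w i) • B i := fun z i => hA i _
  refine sub_of_eqs (ι := I ⊕ I') (Bs_torsor hΩ hT)
    (Sum.elim (fun p => p.1) (fun p => MvPolynomial.aeval (fun s : IG B₀ n × IG B₀ n => Gc l A₁ A₂ w s.1 s.2) p.1)) ?_
    fun x => ?_
  · rintro (p | p)
    · exact PK_of (hI1 p.1 p.2)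
    · exact sec_mem hA₁ hA₂ w (hI1' p.1 p.2)
  · constructor
    · rintro ⟨hx, Y, hY⟩
      refine ⟨hΩ.isUnit x hx, ?_⟩
      rintro (p | p)
      · simp only [Sum.elim_inl]
        exact ((hI2 x).1 hx).2 p.1 p.2
      · simp only [Sum.elim_inr]
        rw [sec_eval]
        have hxl : x l l ≠ 0 := (hspl x hx).ne (hΩ.isUnit x hx)
        obtain ⟨x', -, Y', he, hY'⟩ := hTP hY
        obtain ⟨rfl, rfl⟩ := EG_inj he
        have h1 := fibre_full hT hst (μ := fun i => (x l l) ^ (w i)) (fun i => pow_ne_zero _ hxl) hY hY'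
          (hS (x l l)) fun i => Or.inl (hB i)
        exact ((hI2' _).1 h1).2 p.1 p.2
    · rintro ⟨hu, h⟩
      have hx : x ∈ Ω := by
        rw [hI2]
        exact ⟨hu, fun p hp => h (Sum.inl ⟨p, hp⟩)⟩
      have hxl : x l l ≠ 0 := (hspl x hx).ne hu
      refine ⟨hx, Sc A₁ A₂ w (x l l), ?_⟩
      rw [hI2']
      refine ⟨EG_unit' hu fun i => (sim_inv (pow_ne_zero _ hxl) (hB i).1 (hS _ i)).1, fun p hp => ?_⟩
      have h1 := h (Sum.inr ⟨p, hp⟩)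
      simp only [Sum.elim_inr] at h1
      rw [sec_eval] at h1
      exact h1

/-- **The smallest subtorsor is the full preimage of the smallest subtorsor of the constant part.** -/
theorem PS_le {D : ℕ} {C₀ : Matrix B₀ B₀ ℂ} {Z : ∀ i, Matrix (Fin (n i)) (Fin (n i)) ℂ} (hst : St D C₀ Z B)
    (hB : ∀ i, Spf (B i)) (hQ : ∀ i, Spf (Q i)) (hKf : FiniteDimensional ℚ K) (hKD : Module.finrank ℚ K ≤ D)
    (hBK : ∀ i a b, B i a b ∈ K) (hQK : ∀ i a b, Q i a b ∈ K) {w : Fin k → ℕ} {Ω : Set (Matrix B₀ B₀ ℂ)}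
    (hΩ : IsSubtorsor K Ω) (hC : C₀ ∈ Ω) (hmin : ∀ T, IsSubtorsor K T → C₀ ∈ T → Ω ⊆ T) (hspl : ∀ x ∈ Ω, Spl l x)
    (hZ : ∀ i, Z i * Q i * (Z i)ᵀ = (C₀ l l) ^ (w i) • B i) {T : Set (Matrix (IG B₀ n) (IG B₀ n) ℂ)}
    (hT : IsSubtorsor K T) (hcT : EG C₀ Z ∈ T) : PS l Ω B Q w ⊆ T := by
  have hS := PS_sub (w := w) hΩ hspl (fun i => (hB i).1) hBK hQK
  have hI := Pool.Agent.Y123.ST.inter_sub hT hS
  have hc : EG C₀ Z ∈ T ∩ PS l Ω B Q w := ⟨hcT, C₀, hC, Z, rfl, hZ⟩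
  have hst' := hst K hKf hKD _ hI hc
  have h1 := hmin _ (base_sub hΩ hspl hB hQ hBK hQK w hI Set.inter_subset_right hst') ⟨hC, Z, hc⟩
  rintro _ ⟨x, hx, X, rfl, hX⟩
  obtain ⟨-, X', hX'⟩ := h1 hx
  have hxl : x l l ≠ 0 := (hspl x hx).ne (hΩ.isUnit x hx)
  obtain ⟨x', -, X'', he, hX''⟩ := hX'.2
  obtain ⟨rfl, rfl⟩ := EG_inj he
  exact (fibre_full hI hst' (μ := fun i => (x l l) ^ (w i)) (fun i => pow_ne_zero _ hxl) hX' hX'' hX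
    fun i => Or.inl (hB i)).1

end product

end Pool.Agent.U757.HG
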